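import Pool.Agent.TH836.NS.Defs
import Pool.Agent.W607.OpenSep

/-!
# Formal nodes of projective surfaces, and separation of jets over an extension field
-/

namespace Pool.Agent.TH836.NS

open Filter Topology MvPolynomial Pool.Agent.W607 Pool.Agent.TH176.Nag Pool.Agent.TH880.NB

variable {N : ℕ}

/-- `x` is a formal parametrisation, in the chart `ℓ = 1`, of a smooth branch of the scheme of `I`,
with `F₀ = u v` -/
structure FormalNode (I : Ideal (MvPolynomial (Fin (N + 1)) ℂ)) (ℓ F₀ : MvPolynomial (Fin (N + 1)) ℂ)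
    (x : Fin (N + 1) → PP ℂ) : Prop where
  zero : ∀ f ∈ I, aeval x f = 0
  chart : aeval x ℓ = 1
  node : aeval x F₀ = uv ℂ
  /-- two linear forms are local parameters -/
  imm : ∃ α β : MvPolynomial (Fin (N + 1)) ℂ, α.IsHomogeneous 1 ∧ β.IsHomogeneous 1 ∧
    cc (aeval x α) 0 0 = 0 ∧ cc (aeval x α) 1 0 = 1 ∧ cc (aeval x α) 0 1 = 0 ∧
    cc (aeval x β) 0 0 = 0 ∧ cc (aeval x β) 1 0 = 0 ∧ cc (aeval x β) 0 1 = 1

/-- separation of jets over an extension field -/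
def SepK (K : Type) [Field K] [Algebra ℂ K] {N n : ℕ} (I : Ideal (MvPolynomial (Fin (N + 1)) ℂ))
    (ℓ : MvPolynomial (Fin (N + 1)) ℂ) (E s : ℕ) (w : Fin n → Fin (N + 1) → K) : Prop :=
  ∀ q (f : MvPolynomial (Fin (N + 1)) K), ∃ F : MvPolynomial (Fin (N + 1)) K,
    F.IsHomogeneous E ∧
    F - f ∈ (I.map (MvPolynomial.map (algebraMap ℂ K))) ⊔
      Ideal.span {MvPolynomial.map (algebraMap ℂ K) ℓ - 1} ⊔ (mw (w q)) ^ s ∧
    ∀ q', q' ≠ q → F ∈ (I.map (MvPolynomial.map (algebraMap ℂ K))) ⊔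
      Ideal.span {MvPolynomial.map (algebraMap ℂ K) ℓ - 1} ⊔ (mw (w q')) ^ s

end Pool.Agent.TH836.NS
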