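import Mathlib
import Pool.Agent.TH880.NB.Cls

/-!
# Nodal graded series

The abstract setting for the Nagata-Biran-Szemberg equality with `n ≥ k² δ` points: a graded
series of functions in the complete local ring `F[[u, v]]` of a surface at a node of an integral
member `u v = 0` of the `k`-th piece.
-/

namespace Pool.Agent.TH836.NS

open Filter Topology Pool.Agent.TH176.Nag Pool.Agent.TH880.NB

/-- the ring `F[[u, v]]` -/
abbrev PP (F : Type) [Field F] : Type := MvPowerSeries (Fin 2) F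

/-- the exponent of `u ^ a * v ^ b` -/
noncomputable def xx (a b : ℕ) : Fin 2 →₀ ℕ := Finsupp.single 0 a + Finsupp.single 1 b

section
variable {F : Type} [Field F]

/-- the coefficient of `u ^ a * v ^ b` -/
noncomputable def cc (g : PP F) (a b : ℕ) : F := MvPowerSeries.coeff (xx a b) g

variable (F) in
/-- the element `u v` -/
noncomputable def uv : PP F := MvPowerSeries.X 0 * MvPowerSeries.X 1

end

/-- A graded series with an integral nodal member in degree `k`. -/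
structure Nodal (F : Type) [Field F] (k : ℕ) (δ : ℝ) where
  V : ℕ → Submodule F (PP F)
  fin : ∀ d, FiniteDimensional F (V d)
  mul_mem : ∀ {d e : ℕ} {f g : PP F}, f ∈ V d → g ∈ V e → f * g ∈ V (d + e)
  one_mem : (1 : PP F) ∈ V k
  uv_mem : uv F ∈ V k
  /-- the bound for the next property -/
  c : ℕ
  /-- a section of large degree vanishing on one of the two branches is divisible by `u v` -/
  prime : ∀ (d : ℕ) (g : PP F), c ≤ d → k ≤ d → g ∈ V d →
    ((∀ a, cc g a 0 = 0) ∨ (∀ b, cc g 0 b = 0)) → ∃ g' ∈ V (d - k), g = uv F * g'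
  /-- jets are separated -/
  jets : ∀ A : ℕ, ∃ d0 : ℕ, ∀ d : ℕ, d0 ≤ d → ∀ p : PP F, ∃ g ∈ V d,
    ∀ a b : ℕ, a + b ≤ A → cc g a b = cc p a b
  growth : Tendsto (fun d : ℕ => 2 * (Module.finrank F (V d) : ℝ) / (d : ℝ) ^ 2) atTop (𝓝 δ)
  k_pos : 1 ≤ k
  δ_pos : 0 < δ

section
variable {F : Type} [Field F]

/-- `u ^ a * v ^ b` is the only monomial of `G` of minimal weight, for the weights `p1, p2` -/
def LeadAt (p1 p2 : ℕ) (G : PP F) (a b : ℕ) : Prop :=
  cc G a b ≠ 0 ∧ ∀ a' b' : ℕ, cc G a' b' ≠ 0 → (a' = a ∧ b' = b) ∨ p1 * a + p2 * b < p1 * a' + p2 * b'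

/-- The exponent `i` of the annulus is achieved by a section of degree `d` over `F[t]`, `t = u v`. -/
def Ach {k : ℕ} {δ : ℝ} (N : Nodal F k δ) (d p1 p2 : ℕ) (i : ℤ) : Prop :=
  ∃ g : Polynomial (PP F), (∀ c, g.coeff c ∈ N.V d) ∧
    ∃ a b : ℕ, (a : ℤ) - b = i ∧ LeadAt p1 p2 (g.eval (uv F)) a b

/-- the monomial `z ^ m.1 * Y ^ m.2` -/
noncomputable def zY (m : ℤ × ℤ) (c : F) : Lau F := AddMonoidAlgebra.single m c

variable (F) in
/-- the tube `u = T ^ p1 z`, `v = T ^ p2 z⁻¹ (1 + T ^ σ Y)` -/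
noncomputable def tb (p1 p2 σ : ℕ) : Fin 2 → PowerSeries (Lau F) :=
  ![PowerSeries.X ^ p1 * PowerSeries.C (zY (1, 0) 1),
    PowerSeries.X ^ p2 * PowerSeries.C (zY (-1, 0) 1) *
      (1 + PowerSeries.X ^ σ * PowerSeries.C (zY (0, 1) 1))]

theorem hasSubst_tb {p1 p2 σ : ℕ} (h1 : 1 ≤ p1) (h2 : 1 ≤ p2) :
    MvPowerSeries.HasSubst (S := Lau F) (tb F p1 p2 σ) := by
  refine MvPowerSeries.hasSubst_of_constantCoeff_zero fun s => ?_
  have hX : ∀ p : ℕ, 1 ≤ p → PowerSeries.constantCoeff (R := Lau F) (PowerSeries.X ^ p) = 0 := by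
    intro p hp
    rw [map_pow, PowerSeries.constantCoeff_X, zero_pow (by omega)]
  fin_cases s
  · show PowerSeries.constantCoeff (R := Lau F)
      (PowerSeries.X ^ p1 * PowerSeries.C (zY (1, 0) 1)) = 0
    rw [map_mul, hX p1 h1, zero_mul]
  · show PowerSeries.constantCoeff (R := Lau F)
      (PowerSeries.X ^ p2 * PowerSeries.C (zY (-1, 0) 1) *
      (1 + PowerSeries.X ^ σ * PowerSeries.C (zY (0, 1) 1))) = 0
    rw [map_mul, map_mul, hX p2 h2, zero_mul, zero_mul]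

/-- the value of a power series in `u, v` on the tube -/
noncomputable def Lam {p1 p2 : ℕ} (σ : ℕ) (h1 : 1 ≤ p1) (h2 : 1 ≤ p2) :
    PP F →ₐ[F] PowerSeries (Lau F) :=
  MvPowerSeries.substAlgHom (hasSubst_tb (F := F) (σ := σ) h1 h2)

/-- the value on the tube of a polynomial in `t` with coefficients in `F[[u,v]]`,
`t = T ^ (p1 + p2)` -/
noncomputable def Val {p1 p2 : ℕ} (σ : ℕ) (h1 : 1 ≤ p1) (h2 : 1 ≤ p2) (g : Polynomial (PP F)) :
    PowerSeries (Lau F) :=
  g.eval₂ ((Lam σ h1 h2 : PP F →ₐ[F] PowerSeries (Lau F)) : PP F →+* PowerSeries (Lau F))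
    (PowerSeries.X ^ (p1 + p2))

/-- **the result of the core**: the sections of degree `E` take on the tube all the leading terms
`z ^ m.1 * Y ^ m.2` for `m` in a set of exponents which determines the jets of order `s` at `n`
general points -/
def LC {k : ℕ} {δ : ℝ} (N : Nodal F k δ) (n E s : ℕ) : Prop :=
  ∃ (p1 p2 σ : ℕ) (h1 : 1 ≤ p1) (h2 : 1 ≤ p2) (T : Finset (ℤ × ℤ)), 1 ≤ σ ∧
    T.card = n * (s + 1).choose 2 ∧ Emp (fun _ : Fin n => s) (↑T : Set (ℤ × ℤ)) ∧
    ∀ m ∈ T, ∃ g : Polynomial (PP F), (∀ c, g.coeff c ∈ N.V E) ∧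
      ∃ (ω : ℕ) (r : PowerSeries (Lau F)),
        Val σ h1 h2 g = PowerSeries.X ^ ω * (PowerSeries.C (zY m 1) + PowerSeries.X * r)

end

end Pool.Agent.TH836.NS
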