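import Pool.Agent.TH836.NS.Defs

set_option autoImplicit false

namespace Pool.Agent.TH836.NS

namespace All

lemma card_Icc_le {x y : ℝ} (h : x ≤ y + 1) :
    ((Finset.Icc ⌈x⌉ ⌊y⌋).card : ℝ) ≤ y - x + 1 := by
  rw [Int.card_Icc]
  have h1 : (⌊y⌋ : ℝ) ≤ y := Int.floor_le y
  have h2 : x ≤ (⌈x⌉ : ℝ) := Int.le_ceil x
  have h3 : (((⌊y⌋ + 1 - ⌈x⌉).toNat : ℤ) : ℝ) ≤ y - x + 1 := by
    rcases le_total 0 (⌊y⌋ + 1 - ⌈x⌉) with h4 | h4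
    · rw [Int.toNat_of_nonneg h4]
      push_cast
      linarith
    · rw [Int.toNat_of_nonpos h4]
      push_cast
      linarith
  exact_mod_cast h3

lemma le_card_Icc (x y : ℝ) : y - x - 1 ≤ ((Finset.Icc ⌈x⌉ ⌊y⌋).card : ℝ) := by
  rw [Int.card_Icc]
  have h1 : y - 1 < (⌊y⌋ : ℝ) := Int.sub_one_lt_floor y
  have h2 : (⌈x⌉ : ℝ) < x + 1 := Int.ceil_lt_add_one x
  have h3 : ((⌊y⌋ + 1 - ⌈x⌉ : ℤ) : ℝ) ≤ (((⌊y⌋ + 1 - ⌈x⌉).toNat : ℤ) : ℝ) := by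
    exact_mod_cast Int.self_le_toNat _
  push_cast at h3
  have h4 : (((⌊y⌋ + 1 - ⌈x⌉).toNat : ℤ) : ℝ) = ((⌊y⌋ + 1 - ⌈x⌉).toNat : ℝ) := by push_cast; rfl
  push_cast at h4
  linarith

/-- two sets of integers which miss few integers of two intervals: every integer which is not too
close to the ends of the sum of the intervals is a sum -/
lemma exists_sum {κ η a b e₁ e₂ L : ℝ} {i : ℤ} {A₁ A₂ : Finset ℤ} (hκ : 0 ≤ κ) (ha : 0 ≤ a)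
    (hb : 0 ≤ b) (hab : a + b = 1) (he₁ : 0 ≤ e₁) (he₂ : 0 ≤ e₂)
    (h₁ : ∀ x ∈ A₁, -((κ * e₁ + 1) * a) ≤ (x : ℝ) ∧ (x : ℝ) ≤ (κ * e₁ + 1) * b)
    (h₂ : ∀ x ∈ A₂, -((κ * e₂ + 1) * a) ≤ (x : ℝ) ∧ (x : ℝ) ≤ (κ * e₂ + 1) * b)
    (c₁ : (κ - η) * e₁ ≤ A₁.card) (c₂ : (κ - η) * e₂ ≤ A₂.card)
    (lo : -(κ * (e₁ + e₂) * a) + L ≤ i) (hi : (i : ℝ) ≤ κ * (e₁ + e₂) * b - L)
    (L₁ : L ≤ κ * e₁) (L₂ : L ≤ κ * e₂) (big : η * (e₁ + e₂) + 5 < L) :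
    ∃ x ∈ A₁, i - x ∈ A₂ := by
  by_contra hcon
  push Not at hcon
  set S₁ : Finset ℤ := Finset.Icc ⌈-((κ * e₁ + 1) * a)⌉ ⌊(κ * e₁ + 1) * b⌋ with hS₁
  set S₂ : Finset ℤ := Finset.Icc ⌈-((κ * e₂ + 1) * a)⌉ ⌊(κ * e₂ + 1) * b⌋ with hS₂
  have s₁ : (S₁.card : ℝ) ≤ κ * e₁ + 2 := by
    have h3 : -((κ * e₁ + 1) * a) ≤ (κ * e₁ + 1) * b + 1 := by
      have : 0 ≤ κ * e₁ := by positivity
      nlinarith
    have h4 := card_Icc_le h3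
    have h5 : (κ * e₁ + 1) * b - -((κ * e₁ + 1) * a) = κ * e₁ + 1 := by
      have : (κ * e₁ + 1) * b - -((κ * e₁ + 1) * a) = (κ * e₁ + 1) * (a + b) := by ring
      rw [this, hab, mul_one]
    rw [h5] at h4
    linarith
  have s₂ : (S₂.card : ℝ) ≤ κ * e₂ + 2 := by
    have h3 : -((κ * e₂ + 1) * a) ≤ (κ * e₂ + 1) * b + 1 := by
      have : 0 ≤ κ * e₂ := by positivity
      nlinarith
    have h4 := card_Icc_le h3
    have h5 : (κ * e₂ + 1) * b - -((κ * e₂ + 1) * a) = κ * e₂ + 1 := by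
      have : (κ * e₂ + 1) * b - -((κ * e₂ + 1) * a) = (κ * e₂ + 1) * (a + b) := by ring
      rw [this, hab, mul_one]
    rw [h5] at h4
    linarith
  have a₁ : A₁ ⊆ S₁ := fun x hx => by
    rw [hS₁, Finset.mem_Icc]
    exact ⟨Int.ceil_le.2 (h₁ x hx).1, Int.le_floor.2 (h₁ x hx).2⟩
  have a₂ : A₂ ⊆ S₂ := fun x hx => by
    rw [hS₂, Finset.mem_Icc]
    exact ⟨Int.ceil_le.2 (h₂ x hx).1, Int.le_floor.2 (h₂ x hx).2⟩
  set X : ℝ := max (-(κ * e₁ * a)) (i - κ * e₂ * b) with hX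
  set Y : ℝ := min (κ * e₁ * b) (i + κ * e₂ * a) with hY
  have hYX : L ≤ Y - X := by
    rw [le_sub_iff_add_le, hY, le_min_iff, ← le_sub_iff_add_le', ← le_sub_iff_add_le', hX,
      max_le_iff, max_le_iff]
    have t1 : κ * e₁ * a + κ * e₁ * b = κ * e₁ := by rw [← mul_add, hab, mul_one]
    have t2 : κ * e₂ * a + κ * e₂ * b = κ * e₂ := by rw [← mul_add, hab, mul_one]
    have t3 : κ * (e₁ + e₂) * a = κ * e₁ * a + κ * e₂ * a := by ring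
    have t4 : κ * (e₁ + e₂) * b = κ * e₁ * b + κ * e₂ * b := by ring
    rw [t3] at lo
    rw [t4] at hi
    refine ⟨⟨?_, ?_⟩, ?_, ?_⟩ <;> linarith
  set J : Finset ℤ := Finset.Icc ⌈X⌉ ⌊Y⌋ with hJ
  have hJc : L - 1 ≤ (J.card : ℝ) := by
    have := le_card_Icc X Y
    linarith
  have hsub : J ⊆ (S₁ \ A₁) ∪ (S₂ \ A₂).image (fun x => i - x) := by
    intro x hx
    rw [hJ, Finset.mem_Icc, Int.ceil_le, Int.le_floor] at hx
    obtain ⟨x1, x2⟩ := hx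
    rw [hX, max_le_iff] at x1
    rw [hY, le_min_iff] at x2
    obtain ⟨x1, x3⟩ := x1
    obtain ⟨x2, x4⟩ := x2
    rw [Finset.mem_union, Finset.mem_sdiff]
    by_cases hxA : x ∈ A₁
    · right
      rw [Finset.mem_image]
      refine ⟨i - x, ?_, by ring⟩
      rw [Finset.mem_sdiff, hS₂, Finset.mem_Icc, Int.ceil_le, Int.le_floor]
      refine ⟨⟨?_, ?_⟩, hcon x hxA⟩
      · push_cast
        nlinarith
      · push_cast
        nlinarith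
    · left
      refine ⟨?_, hxA⟩
      rw [hS₁, Finset.mem_Icc, Int.ceil_le, Int.le_floor]
      constructor <;> nlinarith
  have hc1 : J.card ≤ (S₁ \ A₁).card + (S₂ \ A₂).card :=
    (Finset.card_le_card hsub).trans ((Finset.card_union_le _ _).trans
      (Nat.add_le_add_left Finset.card_image_le _))
  have hc2 : (S₁ \ A₁).card + A₁.card = S₁.card := Finset.card_sdiff_add_card_eq_card a₁
  have hc3 : (S₂ \ A₂).card + A₂.card = S₂.card := Finset.card_sdiff_add_card_eq_card a₂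
  have hc1' : (J.card : ℝ) ≤ (S₁ \ A₁).card + (S₂ \ A₂).card := by exact_mod_cast hc1
  have hc2' : ((S₁ \ A₁).card : ℝ) + A₁.card = S₁.card := by exact_mod_cast hc2
  have hc3' : ((S₂ \ A₂).card : ℝ) + A₂.card = S₂.card := by exact_mod_cast hc3
  have t : (κ - η) * e₁ + (κ - η) * e₂ = κ * e₁ + κ * e₂ - η * (e₁ + e₂) := by ring
  linarith

end All

section
variable {F : Type} [Field F] {k : ℕ} {δ : ℝ}

/-- `ach_all` from `Nodal.dim_lower`, `card_ach` and `Ach.add` for `N` -/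
theorem ach_all_of (N : Nodal F k δ)
    (hlow : ∀ {η : ℝ}, 0 < η → ∃ d0 : ℕ, ∀ d : ℕ, d0 ≤ d → k ≤ d ∧
      (k * δ - η) * d ≤ (Module.finrank F (N.V d) : ℝ) - Module.finrank F (N.V (d - k)))
    (hcard : ∀ {d p1 p2 : ℕ}, k ≤ d → N.c ≤ d → 1 ≤ p1 → 1 ≤ p2 → Nat.Coprime p1 p2 →
      k * δ * d + 1 < (p1 : ℝ) + p2 →
      ∃ A : Finset ℤ, (∀ i ∈ A, Ach N d p1 p2 i ∧
        -((k * δ * d + 1) * (p1 / ((p1 : ℝ) + p2))) ≤ i ∧
        (i : ℝ) ≤ (k * δ * d + 1) * (p2 / ((p1 : ℝ) + p2))) ∧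
        Module.finrank F (N.V d) ≤ A.card + Module.finrank F (N.V (d - k)))
    (hadd : ∀ {d e p1 p2 : ℕ} {i j : ℤ}, Ach N d p1 p2 i → Ach N e p1 p2 j →
      Ach N (d + e) p1 p2 (i + j))
    {η : ℝ} (hη : 0 < η) : ∃ d0 : ℕ, ∀ d : ℕ, d0 ≤ d →
    ∀ p1 p2 : ℕ, 1 ≤ p1 → 1 ≤ p2 → Nat.Coprime p1 p2 → k * δ * d + 1 < (p1 : ℝ) + p2 →
    ∀ i : ℤ, -(k * δ * d * (p1 / ((p1 : ℝ) + p2))) + η * d ≤ i →
      (i : ℝ) ≤ k * δ * d * (p2 / ((p1 : ℝ) + p2)) - η * d → Ach N d p1 p2 i := by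
  obtain ⟨d1, hd1⟩ := hlow (half_pos hη)
  have hκ : 0 ≤ (k : ℝ) * δ := mul_nonneg (Nat.cast_nonneg _) N.δ_pos.le
  obtain ⟨d2, hd2⟩ := exists_nat_gt (((k : ℝ) * δ + 10) / η)
  refine ⟨2 * (d1 + N.c + k) + d2 + 1, fun d hd p1 p2 hp1 hp2 hc hq i hlo hhi => ?_⟩
  have hp1' : (1 : ℝ) ≤ p1 := by exact_mod_cast hp1
  have hp2' : (1 : ℝ) ≤ p2 := by exact_mod_cast hp2
  have hpp : (0 : ℝ) < (p1 : ℝ) + p2 := by linarith
  set a : ℝ := p1 / ((p1 : ℝ) + p2) with ha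
  set b : ℝ := p2 / ((p1 : ℝ) + p2) with hb
  have ha0 : 0 ≤ a := by positivity
  have hb0 : 0 ≤ b := by positivity
  have hab : a + b = 1 := by rw [ha, hb, ← add_div, div_self hpp.ne']
  obtain ⟨e1, he1⟩ : ∃ e1, e1 = d / 2 := ⟨_, rfl⟩
  obtain ⟨e2, he2⟩ : ∃ e2, e2 = d - d / 2 := ⟨_, rfl⟩
  have hde : e1 + e2 = d := by omega
  have hde' : (e1 : ℝ) + e2 = d := by exact_mod_cast hde
  have hl1 : d ≤ 2 * e1 + 1 := by omega
  have hl1' : (d : ℝ) ≤ 2 * e1 + 1 := by exact_mod_cast hl1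
  have hl2 : d ≤ 2 * e2 + 1 := by omega
  have hl2' : (d : ℝ) ≤ 2 * e2 + 1 := by exact_mod_cast hl2
  have hq1 : (k : ℝ) * δ * e1 + 1 < (p1 : ℝ) + p2 := by
    have : (k : ℝ) * δ * e1 ≤ k * δ * d := mul_le_mul_of_nonneg_left (by
      exact_mod_cast (show e1 ≤ d by omega)) hκ
    linarith
  have hq2 : (k : ℝ) * δ * e2 + 1 < (p1 : ℝ) + p2 := by
    have : (k : ℝ) * δ * e2 ≤ k * δ * d := mul_le_mul_of_nonneg_left (by
      exact_mod_cast (show e2 ≤ d by omega)) hκ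
    linarith
  obtain ⟨A₁, hA₁, hA₁c⟩ := hcard (d := e1) (by omega) (by omega) hp1 hp2 hc hq1
  obtain ⟨A₂, hA₂, hA₂c⟩ := hcard (d := e2) (by omega) (by omega) hp1 hp2 hc hq2
  obtain ⟨-, l1⟩ := hd1 e1 (by omega)
  obtain ⟨-, l2⟩ := hd1 e2 (by omega)
  have c1 : ((k : ℝ) * δ - η / 2) * e1 ≤ A₁.card := by
    have : (Module.finrank F (N.V e1) : ℝ) ≤ A₁.card + Module.finrank F (N.V (e1 - k)) := by
      exact_mod_cast hA₁c
    linarith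
  have c2 : ((k : ℝ) * δ - η / 2) * e2 ≤ A₂.card := by
    have : (Module.finrank F (N.V e2) : ℝ) ≤ A₂.card + Module.finrank F (N.V (e2 - k)) := by
      exact_mod_cast hA₂c
    linarith
  have hd2' : ((k : ℝ) * δ + 10) < η * d := by
    have h3 : (d2 : ℝ) ≤ d := by exact_mod_cast (show d2 ≤ d by omega)
    have h4 := hd2.trans_le h3
    rw [div_lt_iff₀ hη] at h4
    linarith
  have hηκ : 2 * (η * d) ≤ k * δ * d := by
    have h3 : (k : ℝ) * δ * d * a + k * δ * d * b = k * δ * d := by rw [← mul_add, hab, mul_one]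
    linarith
  obtain ⟨x, hx, hx'⟩ := All.exists_sum (κ := k * δ) (η := η / 2) (a := a) (b := b) (e₁ := e1)
    (e₂ := e2) (L := η * d - k * δ / 2) (i := i) hκ ha0 hb0 hab (Nat.cast_nonneg _)
    (Nat.cast_nonneg _) (fun x hx => (hA₁ x hx).2) (fun x hx => (hA₂ x hx).2) c1 c2
    (by rw [hde']; linarith) (by rw [hde']; linarith)
    (by nlinarith) (by nlinarith) (by rw [hde']; linarith)
  have := hadd (hA₁ x hx).1 (hA₂ _ hx').1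
  rw [hde, add_sub_cancel] at this
  exact this

end

end Pool.Agent.TH836.NS
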