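import Pool.Agent.TH836.NS.Lead
import Pool.Agent.TH692.NCBez

/-! The pigeonhole count of the leading exponents. -/

namespace Pool.Agent.TH836.NS

open Filter Topology Pool.Agent.TH176.Nag Pool.Agent.TH880.NB

namespace Card

variable {F : Type} [Field F]

theorem xx_zero (a b : ℕ) : xx a b 0 = a := by simp [xx]

theorem xx_one (a b : ℕ) : xx a b 1 = b := by simp [xx]

theorem xx_le {j l a b : ℕ} : xx j l ≤ xx a b ↔ j ≤ a ∧ l ≤ b := by
  rw [Finsupp.le_def, Fin.forall_fin_two, xx_zero, xx_one, xx_zero, xx_one]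

theorem xx_sub (j l a b : ℕ) : xx a b - xx j l = xx (a - j) (b - l) := by
  apply Finsupp.ext
  rw [Fin.forall_fin_two]
  rw [Finsupp.tsub_apply, Finsupp.tsub_apply, xx_zero, xx_one, xx_zero, xx_one, xx_zero, xx_one]
  exact ⟨rfl, rfl⟩

theorem cc_uv_pow_mul (h : PP F) (j a b : ℕ) :
    cc (uv F ^ j * h) a b = if j ≤ a ∧ j ≤ b then cc h (a - j) (b - j) else 0 := by
  have e0 : j • (Finsupp.single (0 : Fin 2) 1 + Finsupp.single 1 1) = xx j j := by
    apply Finsupp.ext
    rw [Fin.forall_fin_two, xx_zero, xx_one]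
    simp
  have e : uv F ^ j = MvPowerSeries.monomial (xx j j) (1 : F) := by
    unfold uv
    rw [MvPowerSeries.X_def, MvPowerSeries.X_def, MvPowerSeries.monomial_mul_monomial,
      MvPowerSeries.monomial_pow, mul_one, one_pow, e0]
  unfold cc
  rw [e, MvPowerSeries.coeff_monomial_mul, one_mul, xx_sub]
  simp only [xx_le]

theorem cc_add (g h : PP F) (a b : ℕ) : cc (g + h) a b = cc g a b + cc h a b := by
  unfold cc
  rw [map_add]

theorem cc_smul (r : F) (g : PP F) (a b : ℕ) : cc (r • g) a b = r * cc g a b := by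
  unfold cc
  rw [map_smul, smul_eq_mul]

theorem cc_sum {κ : Type*} (s : Finset κ) (f : κ → PP F) (a b : ℕ) :
    cc (∑ x ∈ s, f x) a b = ∑ x ∈ s, cc (f x) a b := by
  unfold cc
  rw [map_sum]

theorem uv_ne_zero : uv F ≠ 0 := by
  intro h
  have h1 := cc_uv_pow_mul (1 : PP F) 1 1 1
  rw [h, pow_one, zero_mul, if_pos ⟨le_rfl, le_rfl⟩] at h1
  have h2 : cc (0 : PP F) 1 1 = 0 := by
    unfold cc
    rw [map_zero]
  have h3 : cc (1 : PP F) (1 - 1) (1 - 1) = 1 := by
    have : xx 0 0 = 0 := by simp [xx]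
    unfold cc
    rw [Nat.sub_self, this]
    exact MvPowerSeries.coeff_zero_one
  rw [h2, h3] at h1
  exact zero_ne_one h1

/-- `∑ c l (u v) * g l` -/
noncomputable def comb {M : ℕ} (c : Fin M → PowerSeries F) (g : Fin M → PP F) : PP F :=
  fun m => ∑ l, ∑ j ∈ Finset.range (min (m 0) (m 1) + 1),
    PowerSeries.coeff j (c l) * cc (g l) (m 0 - j) (m 1 - j)

theorem cc_comb {M : ℕ} (c : Fin M → PowerSeries F) (g : Fin M → PP F) (a b : ℕ) :
    cc (comb c g) a b = ∑ l, ∑ j ∈ Finset.range (min a b + 1),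
      PowerSeries.coeff j (c l) * cc (g l) (a - j) (b - j) := by
  have : cc (comb c g) a b = comb c g (xx a b) := rfl
  rw [this]
  unfold comb
  rw [xx_zero, xx_one]

/-- the coefficients of `z ^ i` as a power series in `t` -/
noncomputable def PI (i : ℤ) (g : PP F) : PowerSeries F :=
  PowerSeries.mk fun b => cc g (i.toNat + b) ((-i).toNat + b)

theorem coeff_PI_sum {M : ℕ} (c : Fin M → PowerSeries F) (g : Fin M → PP F) (i : ℤ) (b : ℕ) :
    PowerSeries.coeff b (∑ l, c l * PI i (g l)) =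
      cc (comb c g) (i.toNat + b) ((-i).toNat + b) := by
  rw [map_sum, cc_comb]
  refine Finset.sum_congr rfl fun l _ => ?_
  rw [PowerSeries.coeff_mul, Finset.Nat.sum_antidiagonal_eq_sum_range_succ
    (fun p q => PowerSeries.coeff p (c l) * PowerSeries.coeff q (PI i (g l)))]
  have hmin : min (i.toNat + b) ((-i).toNat + b) = b := by omega
  rw [hmin]
  refine Finset.sum_congr rfl fun j hj => ?_
  rw [Finset.mem_range] at hj
  unfold PI
  rw [PowerSeries.coeff_mk]
  have e1 : i.toNat + (b - j) = i.toNat + b - j := by omega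
  have e2 : (-i).toNat + (b - j) = (-i).toNat + b - j := by omega
  rw [e1, e2]

/-- the truncation as a polynomial -/
noncomputable def gp {M : ℕ} (H : ℕ) (c : Fin M → PowerSeries F) (g : Fin M → PP F) :
    Polynomial (PP F) :=
  ∑ j ∈ Finset.range H, Polynomial.monomial j (∑ l, PowerSeries.coeff j (c l) • g l)

theorem coeff_gp {M : ℕ} (H : ℕ) (c : Fin M → PowerSeries F) (g : Fin M → PP F) (n : ℕ) :
    (gp H c g).coeff n = if n < H then ∑ l, PowerSeries.coeff n (c l) • g l else 0 := by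
  unfold gp
  rw [Polynomial.finsetSum_coeff]
  simp only [Polynomial.coeff_monomial]
  rw [Finset.sum_ite_eq' (Finset.range H) n]
  simp only [Finset.mem_range]

theorem cc_eval_gp {M : ℕ} {H : ℕ} (c : Fin M → PowerSeries F) (g : Fin M → PP F) {a b : ℕ}
    (h : min a b < H) : cc ((gp H c g).eval (uv F)) a b = cc (comb c g) a b := by
  unfold gp
  rw [Polynomial.eval_finsetSum, cc_sum, cc_comb, Finset.sum_comm]
  symm
  have e : ∀ j, cc (Polynomial.eval (uv F) (Polynomial.monomial j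
      (∑ l, PowerSeries.coeff j (c l) • g l))) a b =
      if j ≤ a ∧ j ≤ b then ∑ l, PowerSeries.coeff j (c l) * cc (g l) (a - j) (b - j) else 0 := by
    intro j
    rw [Polynomial.eval_monomial, mul_comm, cc_uv_pow_mul, cc_sum]
    simp only [cc_smul]
  simp only [e]
  have hsub : Finset.range (min a b + 1) ⊆ Finset.range H := by
    intro x hx
    rw [Finset.mem_range] at hx ⊢
    omega
  rw [← Finset.sum_subset hsub]
  · refine Finset.sum_congr rfl fun j hj => ?_
    rw [Finset.mem_range] at hj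
    rw [if_pos (by omega)]
  · intro j _ hj
    rw [Finset.mem_range] at hj
    rw [if_neg (by omega)]

theorem exists_compl_family {F : Type} [Field F] {E : Type} [AddCommGroup E] [Module F E]
    (V U : Submodule F E) [FiniteDimensional F V] (h : U ≤ V) :
    ∃ (M : ℕ) (g : Fin M → E), M + Module.finrank F U = Module.finrank F V ∧ (∀ l, g l ∈ V) ∧
      ∀ r : Fin M → F, ∑ l, r l • g l ∈ U → r = 0 := by
  obtain ⟨W, hW⟩ := (U.comap V.subtype).exists_isCompl
  have hrank := Submodule.finrank_add_eq_of_isCompl hW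
  rw [(Submodule.comapSubtypeEquivOfLe h).finrank_eq] at hrank
  have bs := Module.finBasis F W
  refine ⟨Module.finrank F W, fun l => ((bs l : V) : E), by omega, fun l => (bs l : V).2,
    fun r hr => ?_⟩
  have h1 : ((∑ l, r l • bs l : W) : V) ∈ U.comap V.subtype := by
    rw [Submodule.mem_comap]
    have e : V.subtype ((∑ l, r l • bs l : W) : V) = ∑ l, r l • ((bs l : V) : E) := by simp
    rw [e]
    exact hr
  have h2 : ((∑ l, r l • bs l : W) : V) ∈ U.comap V.subtype ⊓ W :=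
    ⟨h1, (∑ l, r l • bs l : W).2⟩
  rw [hW.inf_eq_bot, Submodule.mem_bot] at h2
  have h3 : (∑ l, r l • bs l : W) = 0 := Subtype.ext h2
  funext l
  exact Fintype.linearIndependent_iff.1 bs.linearIndependent r h3 l

end Card

open Card

variable {F : Type} [Field F] {k : ℕ} {δ : ℝ}

/-- `card_ach` with the three ingredients as hypotheses -/
theorem card_ach_aux (N : Nodal F k δ)
    (hbez : ∀ {d : ℕ} {g : PP F}, g ∈ N.V d → ∀ {s0 s1 : ℕ},
      cc g s0 0 ≠ 0 → (∀ a < s0, cc g a 0 = 0) → cc g 0 s1 ≠ 0 →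
      (∀ b < s1, cc g 0 b = 0) → (s0 : ℝ) + s1 ≤ k * δ * d + 1)
    (hbound : ∀ {p1 p2 : ℕ}, 1 ≤ p1 → 1 ≤ p2 → ∀ {G : PP F} {s0 s1 a b : ℕ},
      cc G s0 0 ≠ 0 → cc G 0 s1 ≠ 0 →
      (∀ a' b', cc G a' b' ≠ 0 → p1 * a + p2 * b ≤ p1 * a' + p2 * b') →
      ((p1 : ℤ) + p2) * ((a : ℤ) - b) ≤ p2 * ((s0 : ℤ) + s1) ∧
        -((p1 : ℤ) * ((s0 : ℤ) + s1)) ≤ ((p1 : ℤ) + p2) * ((a : ℤ) - b))
    (hlead : ∀ {p1 p2 M : ℕ}, 1 ≤ p1 → 1 ≤ p2 → Nat.Coprime p1 p2 → ∀ {G : PP F} {s0 s1 : ℕ},
      cc G s0 0 ≠ 0 → cc G 0 s1 ≠ 0 → s0 + s1 ≤ M → M < p1 + p2 → ∃ a b : ℕ, LeadAt p1 p2 G a b)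
    {d p1 p2 : ℕ} (hkd : k ≤ d) (hc : N.c ≤ d) (h1 : 1 ≤ p1)
    (h2 : 1 ≤ p2) (hcop : Nat.Coprime p1 p2) (hq : k * δ * d + 1 < (p1 : ℝ) + p2) :
    ∃ A : Finset ℤ, (∀ i ∈ A, Ach N d p1 p2 i ∧
      -((k * δ * d + 1) * (p1 / ((p1 : ℝ) + p2))) ≤ i ∧
      (i : ℝ) ≤ (k * δ * d + 1) * (p2 / ((p1 : ℝ) + p2))) ∧
      Module.finrank F (N.V d) ≤ A.card + Module.finrank F (N.V (d - k)) := by
  classical
  have hfd := N.fin d
  have hfd' := N.fin (d - k)
  -- the subspace of the multiples of `u v`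
  have huv0 : uv F ≠ 0 := uv_ne_zero
  obtain ⟨μ, hμ⟩ : ∃ μ : PP F →ₗ[F] PP F, ∀ x, μ x = uv F * x :=
    ⟨LinearMap.mulLeft F (uv F), fun x => rfl⟩
  have hμinj : Function.Injective μ := by
    intro x y hxy
    rw [hμ, hμ] at hxy
    exact mul_left_cancel₀ huv0 hxy
  have hUV : (N.V (d - k)).map μ ≤ N.V d := by
    rintro _ ⟨x, hx, rfl⟩
    have h3 := N.mul_mem N.uv_mem hx
    rw [Nat.add_sub_of_le hkd] at h3
    rw [hμ]
    exact h3
  have hUr : Module.finrank F ((N.V (d - k)).map μ) = Module.finrank F (N.V (d - k)) :=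
    ((N.V (d - k)).equivMapOfInjective μ hμinj).finrank_eq.symm
  obtain ⟨M, g, hrank, hgV, hgind⟩ := exists_compl_family (N.V d) _ hUV
  -- the interval
  set L : ℝ := -((k * δ * d + 1) * (p1 / ((p1 : ℝ) + p2))) with hL
  set R : ℝ := (k * δ * d + 1) * (p2 / ((p1 : ℝ) + p2)) with hR
  set A : Finset ℤ := (Finset.Icc ⌈L⌉ ⌊R⌋).filter (fun i => Ach N d p1 p2 i) with hA
  refine ⟨A, fun i hi => ?_, ?_⟩
  · rw [hA, Finset.mem_filter, Finset.mem_Icc] at hi
    exact ⟨hi.2, Int.ceil_le.1 hi.1.1, Int.le_floor.1 hi.1.2⟩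
  rw [← hrank, hUr]
  have hgoal : M ≤ A.card := by
    by_contra hlt
    push Not at hlt
    -- a nonzero solution of the linear system
    let f : (Fin M → PowerSeries F) →ₗ[PowerSeries F] (A → PowerSeries F) :=
      { toFun := fun c i => ∑ l, c l * PI (i : ℤ) (g l)
        map_add' := by
          intro c c'
          funext i
          simp only [Pi.add_apply, add_mul, Finset.sum_add_distrib]
        map_smul' := by
          intro r c
          funext i
          simp only [Pi.smul_apply, smul_eq_mul, RingHom.id_apply, Finset.mul_sum, mul_assoc] }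
    have hninj : ¬ Function.Injective f := by
      intro hinj
      have := card_le_of_injective (PowerSeries F) f hinj
      rw [Fintype.card_fin, Fintype.card_coe] at this
      omega
    rw [injective_iff_map_eq_zero] at hninj
    push Not at hninj
    obtain ⟨c, hc0, hcne⟩ := hninj
    have hcsol : ∀ i ∈ A, ∑ l, c l * PI i (g l) = 0 := fun i hi => congrFun hc0 ⟨i, hi⟩
    -- divide by the power of `t`
    have hex : ∃ e : ℕ, ∃ l, PowerSeries.coeff e (c l) ≠ 0 := by
      by_contra hno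
      push Not at hno
      apply hcne
      funext l
      ext e
      rw [hno e l]
      simp
    set e := Nat.find hex with he
    obtain ⟨l0, hl0⟩ := Nat.find_spec hex
    rw [← he] at hl0
    have hlow : ∀ m < e, ∀ l, PowerSeries.coeff m (c l) = 0 := by
      intro m hm l
      have := Nat.find_min hex hm
      push Not at this
      exact this l
    have hdiv : ∀ l, ∃ c', c l = PowerSeries.X ^ e * c' := fun l =>
      PowerSeries.X_pow_dvd_iff.2 fun m hm => hlow m hm l
    choose c' hc' using hdiv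
    have hc'0 : PowerSeries.coeff 0 (c' l0) ≠ 0 := by
      have h3 := hl0
      rw [hc' l0] at h3
      have h4 := PowerSeries.coeff_X_pow_mul (c' l0) e 0
      rw [zero_add] at h4
      rwa [h4] at h3
    have hsol' : ∀ i ∈ A, ∑ l, c' l * PI i (g l) = 0 := by
      intro i hi
      have h3 := hcsol i hi
      have h4 : ∑ l, c l * PI i (g l) = PowerSeries.X ^ e * ∑ l, c' l * PI i (g l) := by
        rw [Finset.mul_sum]
        refine Finset.sum_congr rfl fun l _ => ?_
        rw [hc' l, mul_assoc]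
      rw [h4] at h3
      exact (mul_eq_zero.1 h3).resolve_left (pow_ne_zero _ PowerSeries.X_ne_zero)
    -- the constant combination
    obtain ⟨gb, hgbs⟩ : ∃ gb : PP F, gb = ∑ l, PowerSeries.coeff 0 (c' l) • g l := ⟨_, rfl⟩
    have hgbV : gb ∈ N.V d := by
      rw [hgbs]
      exact Submodule.sum_mem _ fun l _ => Submodule.smul_mem _ _ (hgV l)
    have hgbU : ¬ ∃ g' ∈ N.V (d - k), gb = uv F * g' := by
      rintro ⟨g', hg', h3⟩
      have h4 : ∑ l, PowerSeries.coeff 0 (c' l) • g l ∈ (N.V (d - k)).map μ := by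
        refine ⟨g', hg', ?_⟩
        rw [hμ, ← h3, hgbs]
      exact hc'0 (congrFun (hgind (fun l => PowerSeries.coeff 0 (c' l)) h4) l0)
    have hbr : (∃ a, cc gb a 0 ≠ 0) ∧ ∃ b, cc gb 0 b ≠ 0 := by
      constructor
      · by_contra hno
        push Not at hno
        exact hgbU (N.prime d gb hc hkd hgbV (Or.inl hno))
      · by_contra hno
        push Not at hno
        exact hgbU (N.prime d gb hc hkd hgbV (Or.inr hno))
    obtain ⟨ha, hb⟩ := hbr
    set s0 := Nat.find ha with hs0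
    set s1 := Nat.find hb with hs1
    have hs0' : cc gb s0 0 ≠ 0 := Nat.find_spec ha
    have hs1' : cc gb 0 s1 ≠ 0 := Nat.find_spec hb
    have hbz := hbez hgbV hs0' (fun a h3 => not_not.1 (Nat.find_min ha h3)) hs1'
      (fun b h3 => not_not.1 (Nat.find_min hb h3))
    -- the combination
    have hG0 : ∀ a, cc (comb c' g) a 0 = cc gb a 0 := by
      intro a
      rw [cc_comb, hgbs, cc_sum]
      refine Finset.sum_congr rfl fun l _ => ?_
      rw [Nat.min_zero, cc_smul]
      simp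
    have hG1 : ∀ b, cc (comb c' g) 0 b = cc gb 0 b := by
      intro b
      rw [cc_comb, hgbs, cc_sum]
      refine Finset.sum_congr rfl fun l _ => ?_
      rw [Nat.zero_min, cc_smul]
      simp
    have hlt' : s0 + s1 < p1 + p2 := by
      have : ((s0 + s1 : ℕ) : ℝ) < ((p1 + p2 : ℕ) : ℝ) := by
        push_cast
        linarith
      exact_mod_cast this
    have hGs0 : cc (comb c' g) s0 0 ≠ 0 := by rw [hG0]; exact hs0'
    have hGs1 : cc (comb c' g) 0 s1 ≠ 0 := by rw [hG1]; exact hs1'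
    obtain ⟨a, b, hab⟩ := hlead h1 h2 hcop hGs0 hGs1 le_rfl hlt'
    have hmin : ∀ a' b', cc (comb c' g) a' b' ≠ 0 → p1 * a + p2 * b ≤ p1 * a' + p2 * b' := by
      intro a' b' h3
      rcases hab.2 a' b' h3 with ⟨h4, h5⟩ | h4
      · rw [h4, h5]
      · exact h4.le
    obtain ⟨hb1, hb2⟩ := hbound h1 h2 hGs0 hGs1 hmin
    -- `a - b` is achieved
    have hach : Ach N d p1 p2 ((a : ℤ) - b) := by
      set H := p1 * a + p2 * b + 1 with hH
      have hHlt : ∀ a' b' : ℕ, H ≤ min a' b' → p1 * a + p2 * b < p1 * a' + p2 * b' := by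
        intro a' b' h3
        have h4 : a' ≤ p1 * a' := Nat.le_mul_of_pos_left _ h1
        have h5 : min a' b' ≤ a' := min_le_left _ _
        omega
      refine ⟨gp H c' g, fun n => ?_, a, b, rfl, ?_, ?_⟩
      · rw [coeff_gp]
        split_ifs
        · exact Submodule.sum_mem _ fun l _ => Submodule.smul_mem _ _ (hgV l)
        · exact Submodule.zero_mem _
      · have h3 : min a b < H := by
          by_contra h4
          push Not at h4
          exact lt_irrefl _ (hHlt a b h4)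
        rw [cc_eval_gp c' g h3]
        exact hab.1
      · intro a' b' h3
        rcases lt_or_ge (min a' b') H with h4 | h4
        · rw [cc_eval_gp c' g h4] at h3
          exact hab.2 a' b' h3
        · exact Or.inr (hHlt a' b' h4)
    have hp : (0 : ℝ) < (p1 : ℝ) + p2 := by
      have : (1 : ℝ) ≤ p1 := by exact_mod_cast h1
      have : (0 : ℝ) ≤ p2 := Nat.cast_nonneg _
      linarith
    have hb1' : ((p1 : ℝ) + p2) * ((a : ℝ) - b) ≤ p2 * ((s0 : ℝ) + s1) := by exact_mod_cast hb1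
    have hb2' : -((p1 : ℝ) * ((s0 : ℝ) + s1)) ≤ ((p1 : ℝ) + p2) * ((a : ℝ) - b) := by
      exact_mod_cast hb2
    have hp1 : (0 : ℝ) ≤ p1 := Nat.cast_nonneg _
    have hp2 : (0 : ℝ) ≤ p2 := Nat.cast_nonneg _
    have hmemA : ((a : ℤ) - b) ∈ A := by
      rw [hA, Finset.mem_filter, Finset.mem_Icc]
      refine ⟨⟨Int.ceil_le.2 ?_, Int.le_floor.2 ?_⟩, hach⟩
      · push_cast
        rw [hL]
        have e1 : -((k * δ * d + 1) * (p1 / ((p1 : ℝ) + p2))) =
            -(p1 * (k * δ * d + 1)) / ((p1 : ℝ) + p2) := by ring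
        rw [e1, div_le_iff₀ hp]
        have h3 : (p1 : ℝ) * ((s0 : ℝ) + s1) ≤ p1 * (k * δ * d + 1) :=
          mul_le_mul_of_nonneg_left hbz hp1
        linarith
      · push_cast
        rw [hR]
        have e1 : (k * δ * d + 1) * (p2 / ((p1 : ℝ) + p2)) =
            (p2 * (k * δ * d + 1)) / ((p1 : ℝ) + p2) := by ring
        rw [e1, le_div_iff₀ hp]
        have h3 : (p2 : ℝ) * ((s0 : ℝ) + s1) ≤ p2 * (k * δ * d + 1) :=
          mul_le_mul_of_nonneg_left hbz hp2
        linarith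
    have h3 := coeff_PI_sum c' g ((a : ℤ) - b) (min a b)
    rw [hsol' _ hmemA, map_zero] at h3
    have e1 : ((a : ℤ) - b).toNat + min a b = a := by omega
    have e2 : (-((a : ℤ) - b)).toNat + min a b = b := by omega
    rw [e1, e2] at h3
    exact hab.1 h3.symm
  omega

theorem card_ach (N : Nodal F k δ) {d p1 p2 : ℕ} (hkd : k ≤ d) (hc : N.c ≤ d) (h1 : 1 ≤ p1)
    (h2 : 1 ≤ p2) (hcop : Nat.Coprime p1 p2) (hq : k * δ * d + 1 < (p1 : ℝ) + p2) :
    ∃ A : Finset ℤ, (∀ i ∈ A, Ach N d p1 p2 i ∧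
      -((k * δ * d + 1) * (p1 / ((p1 : ℝ) + p2))) ≤ i ∧
      (i : ℝ) ≤ (k * δ * d + 1) * (p2 / ((p1 : ℝ) + p2))) ∧
      Module.finrank F (N.V d) ≤ A.card + Module.finrank F (N.V (d - k)) :=
  card_ach_aux N (fun hg _ _ a b c d => N.bezout hg a b c d)
    (fun h1 h2 _ _ _ _ _ a b c => lead_bound h1 h2 a b c)
    (fun h1 h2 hc _ _ _ a b c d => exists_leadAt h1 h2 hc a b c d) hkd hc h1 h2 hcop hq

end Pool.Agent.TH836.NS
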