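import Pool.Agent.TH836.NS.Defs

/-!
# Nodal graded series: leading exponents (piece NC-LEAD)
-/

set_option autoImplicit false

namespace Pool.Agent.TH836.NS

open Filter Topology Pool.Agent.TH176.Nag Pool.Agent.TH880.NB

variable {F : Type} [Field F] {k : ℕ} {δ : ℝ}

theorem lead_bound {p1 p2 : ℕ} (h1 : 1 ≤ p1) (h2 : 1 ≤ p2) {G : PP F} {s0 s1 a b : ℕ}
    (hs0 : cc G s0 0 ≠ 0) (hs1 : cc G 0 s1 ≠ 0)
    (hmin : ∀ a' b', cc G a' b' ≠ 0 → p1 * a + p2 * b ≤ p1 * a' + p2 * b') :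
    ((p1 : ℤ) + p2) * ((a : ℤ) - b) ≤ p2 * ((s0 : ℤ) + s1) ∧
      -((p1 : ℤ) * ((s0 : ℤ) + s1)) ≤ ((p1 : ℤ) + p2) * ((a : ℤ) - b) := by
  have e0 := hmin s0 0 hs0
  have e1 := hmin 0 s1 hs1
  simp only [mul_zero, add_zero, zero_add] at e0 e1
  have f0 : (p1 : ℤ) * a + p2 * b ≤ p1 * s0 := by exact_mod_cast e0
  have f1 : (p1 : ℤ) * a + p2 * b ≤ p2 * s1 := by exact_mod_cast e1
  have g1 : (1 : ℤ) ≤ p1 := by exact_mod_cast h1
  have g2 : (1 : ℤ) ≤ p2 := by exact_mod_cast h2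
  have ha : (0 : ℤ) ≤ a := by positivity
  have hb : (0 : ℤ) ≤ b := by positivity
  have hp1 : (0 : ℤ) < p1 := by linarith
  have hp2 : (0 : ℤ) < p2 := by linarith
  constructor
  · -- multiply by `p1`
    have h3 : (p1 : ℤ) * (((p1 : ℤ) + p2) * ((a : ℤ) - b)) ≤ p1 * (p2 * ((s0 : ℤ) + s1)) := by
      have k1 : (p2 : ℤ) * (p1 * a + p2 * b) ≤ p2 * (p1 * s0) :=
        mul_le_mul_of_nonneg_left f0 hp2.le
      have k2 : (p1 : ℤ) * (p1 * a + p2 * b) ≤ p1 * (p2 * s1) :=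
        mul_le_mul_of_nonneg_left f1 hp1.le
      have k3 : (0 : ℤ) ≤ ((p1 : ℤ) + p2) * ((p1 + p2) * b) := by positivity
      nlinarith
    exact le_of_mul_le_mul_left h3 hp1
  · have h3 : (p2 : ℤ) * (-((p1 : ℤ) * ((s0 : ℤ) + s1))) ≤ p2 * (((p1 : ℤ) + p2) * ((a : ℤ) - b)) := by
      have k1 : (p2 : ℤ) * (p1 * a + p2 * b) ≤ p2 * (p1 * s0) :=
        mul_le_mul_of_nonneg_left f0 hp2.le
      have k2 : (p1 : ℤ) * (p1 * a + p2 * b) ≤ p1 * (p2 * s1) :=
        mul_le_mul_of_nonneg_left f1 hp1.le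
      have k3 : (0 : ℤ) ≤ ((p1 : ℤ) + p2) * ((p1 + p2) * a) := by positivity
      nlinarith
    exact le_of_mul_le_mul_left h3 hp2

/-- if the exponents of the monomials of minimal weight are in an interval shorter than `p1 + p2`
there is only one of them -/
theorem exists_leadAt {p1 p2 M : ℕ} (h1 : 1 ≤ p1) (h2 : 1 ≤ p2) (hc : Nat.Coprime p1 p2)
    {G : PP F} {s0 s1 : ℕ} (hs0 : cc G s0 0 ≠ 0) (hs1 : cc G 0 s1 ≠ 0) (hM : s0 + s1 ≤ M)
    (hq : M < p1 + p2) : ∃ a b : ℕ, LeadAt p1 p2 G a b := by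
  classical
  -- the minimal weight
  have hex : ∃ w : ℕ, ∃ a b : ℕ, cc G a b ≠ 0 ∧ p1 * a + p2 * b = w :=
    ⟨_, s0, 0, hs0, rfl⟩
  obtain ⟨a, b, hab, hw⟩ := Nat.find_spec hex
  have hmin : ∀ a' b', cc G a' b' ≠ 0 → p1 * a + p2 * b ≤ p1 * a' + p2 * b' := by
    intro a' b' h
    rw [hw]
    exact Nat.find_min' hex ⟨a', b', h, rfl⟩
  refine ⟨a, b, hab, fun a' b' h' => ?_⟩
  rcases (hmin a' b' h').lt_or_eq with hlt | heq
  · exact Or.inr hlt
  left
  have hmin' : ∀ a'' b'', cc G a'' b'' ≠ 0 → p1 * a' + p2 * b' ≤ p1 * a'' + p2 * b'' := by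
    intro a'' b'' h
    rw [← heq]
    exact hmin a'' b'' h
  obtain ⟨u1, u2⟩ := lead_bound h1 h2 hs0 hs1 hmin
  obtain ⟨v1, v2⟩ := lead_bound h1 h2 hs0 hs1 hmin'
  have hq0 : (0 : ℤ) < (p1 : ℤ) + p2 := by positivity
  have hMq : (s0 : ℤ) + s1 < (p1 : ℤ) + p2 := by
    have : s0 + s1 < p1 + p2 := lt_of_le_of_lt hM hq
    exact_mod_cast this
  have heqZ : (p1 : ℤ) * a + p2 * b = p1 * a' + p2 * b' := by exact_mod_cast heq
  -- the difference of the exponents is divisible by `p1 + p2`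
  have hdvd : ((p1 : ℤ) + p2) ∣ (((a : ℤ) - b) - ((a' : ℤ) - b')) := by
    have hcop : IsCoprime ((p1 : ℤ) + p2) (p1 : ℤ) := by
      have : IsCoprime (p2 : ℤ) (p1 : ℤ) := (Nat.isCoprime_iff_coprime.mpr hc).symm
      have h3 := this.add_mul_left_left 1
      rw [mul_one, add_comm] at h3
      exact h3
    refine hcop.dvd_of_dvd_mul_left ?_
    refine ⟨(b' : ℤ) - b, ?_⟩
    linarith
  obtain ⟨m, hm⟩ := hdvd
  have hm0 : m = 0 := by
    have w1 : ((p1 : ℤ) + p2) * ((p1 + p2) * m) ≤ (p1 + p2) * ((s0 : ℤ) + s1) := by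
      rw [← hm]
      nlinarith
    have w2 : -(((p1 : ℤ) + p2) * ((s0 : ℤ) + s1)) ≤ (p1 + p2) * ((p1 + p2) * m) := by
      rw [← hm]
      nlinarith
    have w3 : ((p1 : ℤ) + p2) * m ≤ (s0 : ℤ) + s1 := le_of_mul_le_mul_left w1 hq0
    have w4 : -((s0 : ℤ) + s1) ≤ ((p1 : ℤ) + p2) * m := by
      have : ((p1 : ℤ) + p2) * (-((s0 : ℤ) + s1)) ≤ (p1 + p2) * ((p1 + p2) * m) := by
        linarith
      exact le_of_mul_le_mul_left this hq0
    have w5 : ((p1 : ℤ) + p2) * m < ((p1 : ℤ) + p2) * 1 := by linarith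
    have w6 : ((p1 : ℤ) + p2) * (-1) < ((p1 : ℤ) + p2) * m := by linarith
    have w7 := lt_of_mul_lt_mul_left w5 hq0.le
    have w8 := lt_of_mul_lt_mul_left w6 hq0.le
    omega
  rw [hm0, mul_zero] at hm
  -- `a - b = a' - b'` and equal weights
  have hb : ((p1 : ℤ) + p2) * ((b' : ℤ) - b) = 0 := by
    have : (a : ℤ) = a' + b - b' := by linarith
    rw [this] at heqZ
    linarith
  have hb' : (b' : ℤ) - b = 0 := by
    rcases mul_eq_zero.mp hb with h | h
    · omega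
    · exact h
  constructor <;> omega

namespace LeadAux

theorem xx_add (a b a' b' : ℕ) : xx a b + xx a' b' = xx (a + a') (b + b') := by
  simp only [xx, Finsupp.single_add]
  abel

theorem eq_xx (m : Fin 2 →₀ ℕ) : m = xx (m 0) (m 1) := by
  ext i
  fin_cases i <;> simp [xx]

theorem xx_zero_apply (a b : ℕ) : xx a b 0 = a := by simp [xx]

theorem xx_one_apply (a b : ℕ) : xx a b 1 = b := by simp [xx]

theorem cc_mul (G G' : PP F) (a b : ℕ) : cc (G * G') a b =
    ∑ p ∈ Finset.HasAntidiagonal.antidiagonal (xx a b), MvPowerSeries.coeff p.1 G * MvPowerSeries.coeff p.2 G' := by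
  classical
  rw [cc, MvPowerSeries.coeff_mul]

end LeadAux

open LeadAux in
theorem LeadAt.mul {p1 p2 : ℕ} {G G' : PP F} {a b a' b' : ℕ} (h : LeadAt p1 p2 G a b)
    (h' : LeadAt p1 p2 G' a' b') : LeadAt p1 p2 (G * G') (a + a') (b + b') := by
  classical
  obtain ⟨h0, hm⟩ := h
  obtain ⟨h0', hm'⟩ := h'
  constructor
  · rw [cc_mul, Finset.sum_eq_single (xx a b, xx a' b')]
    · exact mul_ne_zero h0 h0'
    · rintro ⟨m, m'⟩ hmem hne
      rw [Finset.HasAntidiagonal.mem_antidiagonal] at hmem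
      by_contra hc
      have c1 : MvPowerSeries.coeff m G ≠ 0 := left_ne_zero_of_mul hc
      have c2 : MvPowerSeries.coeff m' G' ≠ 0 := right_ne_zero_of_mul hc
      rw [eq_xx m] at c1
      rw [eq_xx m'] at c2
      have e0 : m 0 + m' 0 = a + a' := by
        have := congrArg (fun f => f 0) hmem
        simpa [xx] using this
      have e1 : m 1 + m' 1 = b + b' := by
        have := congrArg (fun f => f 1) hmem
        simpa [xx] using this
      have hw : p1 * (m 0) + p2 * (m 1) + (p1 * (m' 0) + p2 * (m' 1)) =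
          (p1 * a + p2 * b) + (p1 * a' + p2 * b') := by
        have k0 : p1 * (m 0) + p1 * (m' 0) = p1 * a + p1 * a' := by rw [← mul_add, e0, mul_add]
        have k1 : p2 * (m 1) + p2 * (m' 1) = p2 * b + p2 * b' := by rw [← mul_add, e1, mul_add]
        omega
      rcases hm _ _ c1 with ⟨r0, r1⟩ | hlt
      · rcases hm' _ _ c2 with ⟨r0', r1'⟩ | hlt'
        · apply hne
          rw [Prod.mk.injEq]
          constructor
          · rw [eq_xx m, r0, r1]
          · rw [eq_xx m', r0', r1']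
        · rw [r0, r1] at hw
          omega
      · rcases hm' _ _ c2 with ⟨r0', r1'⟩ | hlt'
        · rw [r0', r1'] at hw
          omega
        · omega
    · intro hn
      exact absurd (Finset.HasAntidiagonal.mem_antidiagonal.mpr (xx_add a b a' b')) hn
  · intro a1 b1 hne
    rw [cc_mul] at hne
    obtain ⟨⟨m, m'⟩, hmem, hc⟩ := Finset.exists_ne_zero_of_sum_ne_zero hne
    rw [Finset.HasAntidiagonal.mem_antidiagonal] at hmem
    have c1 : MvPowerSeries.coeff m G ≠ 0 := left_ne_zero_of_mul hc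
    have c2 : MvPowerSeries.coeff m' G' ≠ 0 := right_ne_zero_of_mul hc
    rw [eq_xx m] at c1
    rw [eq_xx m'] at c2
    have e0 : m 0 + m' 0 = a1 := by
      have := congrArg (fun f => f 0) hmem
      simpa [xx] using this
    have e1 : m 1 + m' 1 = b1 := by
      have := congrArg (fun f => f 1) hmem
      simpa [xx] using this
    have k0 : p1 * a1 = p1 * (m 0) + p1 * (m' 0) := by rw [← mul_add, e0]
    have k1 : p2 * b1 = p2 * (m 1) + p2 * (m' 1) := by rw [← mul_add, e1]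
    have k2 : p1 * (a + a') = p1 * a + p1 * a' := by ring
    have k3 : p2 * (b + b') = p2 * b + p2 * b' := by ring
    rcases hm _ _ c1 with ⟨r0, r1⟩ | hlt
    · rcases hm' _ _ c2 with ⟨r0', r1'⟩ | hlt'
      · left
        omega
      · right
        rw [r0] at k0
        rw [r1] at k1
        omega
    · right
      rcases hm' _ _ c2 with ⟨r0', r1'⟩ | hlt'
      · rw [r0'] at k0
        rw [r1'] at k1
        omega
      · omega

theorem Ach.add {N : Nodal F k δ} {d e p1 p2 : ℕ} {i j : ℤ} (h : Ach N d p1 p2 i)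
    (h' : Ach N e p1 p2 j) : Ach N (d + e) p1 p2 (i + j) := by
  obtain ⟨g, hg, a, b, hab, hl⟩ := h
  obtain ⟨g', hg', a', b', hab', hl'⟩ := h'
  refine ⟨g * g', fun c => ?_, a + a', b + b', ?_, ?_⟩
  · rw [Polynomial.coeff_mul]
    exact Submodule.sum_mem _ fun p _ => N.mul_mem (hg _) (hg' _)
  · push_cast
    linarith
  · rw [Polynomial.eval_mul]
    exact hl.mul hl'

end Pool.Agent.TH836.NS
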