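import Pool.Agent.TH836.NS.Defs

/-! Nodal graded series, part NC-PA: the move to the triangles with few lines. -/

set_option autoImplicit false

namespace Pool.Agent.TH836.NS

open Filter Topology Pool.Agent.TH176.Nag Pool.Agent.TH880.NB

theorem PA_nodal {n : ℕ} (hn1 : 1 ≤ n) {D : ℝ} (hD : 0 < D) (hn : D ≤ n) (v : ℤ) :
    PA n (√(n * D) - v) (D - (√(n * D) - v)) := by
  obtain ⟨w, hw⟩ : ∃ w : ℝ, w = √(n * D) := ⟨_, rfl⟩
  have hn0 : (0 : ℝ) < n := by exact_mod_cast hn1
  have hw0 : 0 < w := by rw [hw]; exact Real.sqrt_pos.2 (by positivity)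
  have hww : w * w = n * D := by rw [hw]; exact Real.mul_self_sqrt (by positivity)
  have hDw : D ≤ w := by
    rw [hw]
    apply Real.le_sqrt_of_sq_le
    rw [pow_two]
    exact mul_le_mul_of_nonneg_right hn hD.le
  have hwn : w ≤ n := by
    rw [hw]
    apply Real.sqrt_le_iff.2
    refine ⟨hn0.le, ?_⟩
    rw [pow_two]
    exact mul_le_mul_of_nonneg_left hn hn0.le
  rw [← hw]
  refine (PA.closed hn1).stepA 1 v isCoprime_one_left (by norm_num) (by push_cast; linarith)
    (by push_cast; linarith) (by linarith) ?_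
  have e1 : ((1 : ℤ) : ℝ) * (((1 : ℤ) : ℝ) * (w - v) + (v : ℝ)) = w := by push_cast; ring
  have e2 : ((v : ℝ) - ((1 : ℤ) : ℝ) * (D - (w - v))) * (((1 : ℤ) : ℝ) * (w - v) + (v : ℝ)) /
      (w - v + (D - (w - v))) = n - w := by
    push_cast
    rw [show w - v + (D - (w - v)) = D by ring, div_eq_iff hD.ne']
    linear_combination hww
  rw [e1, e2]
  unfold PA
  have e3 : √(n : ℝ) * √(w + (n - w)) = n := by
    rw [show w + ((n : ℝ) - w) = n by ring]
    exact Real.mul_self_sqrt hn0.le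
  rw [e3]
  exact AS.base _ hw0.le (by linarith) (by ring)

end Pool.Agent.TH836.NS
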