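import Pool.Agent.TH836.NS.Defs

/-!
# Nodal graded series: values on the tube (NC-TUBE)
-/

set_option autoImplicit false

namespace Pool.Agent.TH836.NS

open Filter Topology Pool.Agent.TH176.Nag Pool.Agent.TH880.NB

variable {F : Type} [Field F] {k : ℕ} {δ : ℝ}

namespace Tube

theorem zY_mul (m n : ℤ × ℤ) (c d : F) : zY m c * zY n d = zY (m + n) (c * d) :=
  AddMonoidAlgebra.single_mul_single _ _ _ _

theorem zY_pow (m : ℤ × ℤ) (c : F) (n : ℕ) : zY m c ^ n = zY (n • m) (c ^ n) :=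
  AddMonoidAlgebra.single_pow _ _ _

theorem zY_zero_one : zY (0 : ℤ × ℤ) (1 : F) = 1 := rfl

theorem Lam_X0 {p1 p2 σ : ℕ} (h1 : 1 ≤ p1) (h2 : 1 ≤ p2) :
    Lam σ h1 h2 (MvPowerSeries.X 0 : PP F) =
      PowerSeries.X ^ p1 * PowerSeries.C (zY (1, 0) 1) := by
  unfold Lam
  rw [MvPowerSeries.substAlgHom_X]
  rfl

theorem Lam_X1 {p1 p2 σ : ℕ} (h1 : 1 ≤ p1) (h2 : 1 ≤ p2) :
    Lam σ h1 h2 (MvPowerSeries.X 1 : PP F) =
      PowerSeries.X ^ p2 * PowerSeries.C (zY (-1, 0) 1) *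
      (1 + PowerSeries.X ^ σ * PowerSeries.C (zY (0, 1) 1)) := by
  unfold Lam
  rw [MvPowerSeries.substAlgHom_X]
  rfl

theorem Lam_uv {p1 p2 σ : ℕ} (h1 : 1 ≤ p1) (h2 : 1 ≤ p2) :
    Lam σ h1 h2 (uv F) = PowerSeries.X ^ (p1 + p2) +
      PowerSeries.X ^ (p1 + p2 + σ) * PowerSeries.C (zY (0, 1) 1) := by
  unfold uv
  rw [map_mul, Lam_X0, Lam_X1]
  have h : (PowerSeries.C (zY (1, 0) (1 : F)) : PowerSeries (Lau F)) *
      PowerSeries.C (zY (-1, 0) 1) = 1 := by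
    rw [← map_mul, zY_mul]
    have e : ((1, 0) : ℤ × ℤ) + (-1, 0) = 0 := rfl
    rw [e, mul_one, zY_zero_one, map_one]
  calc _ = PowerSeries.X ^ p1 * PowerSeries.X ^ p2 * ((PowerSeries.C (zY (1, 0) (1 : F)) :
        PowerSeries (Lau F)) * PowerSeries.C (zY (-1, 0) 1)) *
        (1 + PowerSeries.X ^ σ * PowerSeries.C (zY (0, 1) 1)) := by ring
    _ = _ := by rw [h]; ring

theorem prod_tb {p1 p2 σ : ℕ} (d : Fin 2 →₀ ℕ) :
    (d.prod fun s e => tb F p1 p2 σ s ^ e) =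
      PowerSeries.X ^ (p1 * d 0 + p2 * d 1) * (PowerSeries.C (zY (1, 0) 1) ^ d 0 *
        PowerSeries.C (zY (-1, 0) 1) ^ d 1 *
      (1 + PowerSeries.X ^ σ * PowerSeries.C (zY (0, 1) 1)) ^ d 1) := by
  rw [Finsupp.prod_fintype _ _ (fun i => pow_zero _), Fin.prod_univ_two]
  have e0 : tb F p1 p2 σ 0 = PowerSeries.X ^ p1 * PowerSeries.C (zY (1, 0) 1) := rfl
  have e1 : tb F p1 p2 σ 1 = PowerSeries.X ^ p2 * PowerSeries.C (zY (-1, 0) 1) *
      (1 + PowerSeries.X ^ σ * PowerSeries.C (zY (0, 1) 1)) := rfl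
  rw [e0, e1, mul_pow, mul_pow, mul_pow, ← pow_mul, ← pow_mul, pow_add]
  ring

theorem xx_eq (d : Fin 2 →₀ ℕ) : xx (d 0) (d 1) = d := by
  ext i
  fin_cases i
  · simp [xx]
  · simp [xx]

theorem xx_zero (a b : ℕ) : xx a b 0 = a := by simp [xx]

theorem xx_one (a b : ℕ) : xx a b 1 = b := by simp [xx]

theorem Lam_dvd {p1 p2 σ e : ℕ} (h1 : 1 ≤ p1) (h2 : 1 ≤ p2) {G : PP F}
    (h : ∀ a b, cc G a b ≠ 0 → e ≤ p1 * a + p2 * b) :
    (PowerSeries.X : PowerSeries (Lau F)) ^ e ∣ Lam σ h1 h2 G := by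
  rw [PowerSeries.X_pow_dvd_iff]
  intro m hm
  have h0 : Lam σ h1 h2 G = MvPowerSeries.subst (tb F p1 p2 σ) G :=
    MvPowerSeries.substAlgHom_apply _ _
  rw [h0]
  show MvPowerSeries.coeff (Finsupp.single () m) (MvPowerSeries.subst (tb F p1 p2 σ) G) = 0
  rw [MvPowerSeries.coeff_subst (hasSubst_tb h1 h2)]
  refine finsum_eq_zero_of_forall_eq_zero fun d => ?_
  by_cases hd : MvPowerSeries.coeff d G = 0
  · rw [hd, zero_smul]
  · have h4 : e ≤ p1 * d 0 + p2 * d 1 := h _ _ (by unfold cc; rwa [xx_eq])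
    rw [prod_tb]
    have h5 : PowerSeries.coeff m ((PowerSeries.X : PowerSeries (Lau F)) ^
        (p1 * d 0 + p2 * d 1) * (PowerSeries.C (zY (1, 0) 1) ^ d 0 *
        PowerSeries.C (zY (-1, 0) 1) ^ d 1 *
      (1 + PowerSeries.X ^ σ * PowerSeries.C (zY (0, 1) 1)) ^ d 1)) = 0 :=
      PowerSeries.X_pow_dvd_iff.1 (Dvd.intro _ rfl) m (by omega)
    have h6 : MvPowerSeries.coeff (Finsupp.single () m) ((PowerSeries.X : PowerSeries (Lau F)) ^
        (p1 * d 0 + p2 * d 1) * (PowerSeries.C (zY (1, 0) 1) ^ d 0 *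
        PowerSeries.C (zY (-1, 0) 1) ^ d 1 *
      (1 + PowerSeries.X ^ σ * PowerSeries.C (zY (0, 1) 1)) ^ d 1)) = 0 := h5
    rw [h6, smul_zero]

theorem algMap (c : F) : algebraMap F (PowerSeries (Lau F)) c = PowerSeries.C (zY 0 c) := by
  have h : algebraMap F (PowerSeries (Lau F)) c = PowerSeries.C (algebraMap F (Lau F) c) :=
    MvPowerSeries.algebraMap_apply
  rw [h, AddMonoidAlgebra.coe_algebraMap]
  rfl

theorem Lam_monomial {p1 p2 σ : ℕ} (h1 : 1 ≤ p1) (h2 : 1 ≤ p2) (hσ : 1 ≤ σ) (a b : ℕ) (c : F) :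
    ∃ r : PowerSeries (Lau F), Lam σ h1 h2 (MvPowerSeries.monomial (xx a b) c) =
      PowerSeries.X ^ (p1 * a + p2 * b) *
        (PowerSeries.C (zY ((a : ℤ) - b, 0) c) + PowerSeries.X * r) := by
  have h0 : Lam σ h1 h2 (MvPowerSeries.monomial (xx a b) c) =
      algebraMap F (PowerSeries (Lau F)) c *
        ((xx a b).prod fun s e => tb F p1 p2 σ s ^ e) :=
    MvPowerSeries.substAlgHom_monomial _ _ _
  obtain ⟨r, hr⟩ : (PowerSeries.X : PowerSeries (Lau F)) ∣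
      (1 + PowerSeries.X ^ σ * PowerSeries.C (zY (0, 1) 1)) ^ b - 1 ^ b := by
    refine dvd_trans ?_ (sub_dvd_pow_sub_pow _ _ _)
    rw [add_sub_cancel_left]
    exact Dvd.dvd.mul_right (dvd_pow_self _ (by omega)) _
  rw [one_pow] at hr
  have hr' : (1 + (PowerSeries.X : PowerSeries (Lau F)) ^ σ *
      PowerSeries.C (zY (0, 1) 1)) ^ b = 1 + PowerSeries.X * r := by
    rw [← hr]; ring
  have hz : (PowerSeries.C (zY 0 c) : PowerSeries (Lau F)) *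
      (PowerSeries.C (zY (1, 0) 1) ^ a * PowerSeries.C (zY (-1, 0) 1) ^ b) =
      PowerSeries.C (zY ((a : ℤ) - b, 0) c) := by
    rw [← map_pow, ← map_pow, ← map_mul, ← map_mul, zY_pow, zY_pow, zY_mul, zY_mul]
    congr 2
    · ext
      · simp [sub_eq_add_neg]
      · simp
    · simp
  refine ⟨PowerSeries.C (zY ((a : ℤ) - b, 0) c) * r, ?_⟩
  rw [h0, prod_tb, xx_zero, xx_one, hr', algMap, ← hz]
  ring

theorem Lam_lead {p1 p2 σ : ℕ} (h1 : 1 ≤ p1) (h2 : 1 ≤ p2) (hσ : 1 ≤ σ) {G : PP F} {a b : ℕ}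
    (h : LeadAt p1 p2 G a b) :
    ∃ r : PowerSeries (Lau F), Lam σ h1 h2 G = PowerSeries.X ^ (p1 * a + p2 * b) *
        (PowerSeries.C (zY ((a : ℤ) - b, 0) (cc G a b)) + PowerSeries.X * r) := by
  obtain ⟨r, hr⟩ := Lam_monomial (F := F) h1 h2 hσ a b (cc G a b)
  obtain ⟨s, hs⟩ : (PowerSeries.X : PowerSeries (Lau F)) ^ (p1 * a + p2 * b + 1) ∣
      Lam σ h1 h2 (G - MvPowerSeries.monomial (xx a b) (cc G a b)) := by
    refine Lam_dvd h1 h2 fun a' b' hab => ?_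
    have h3 : cc (G - MvPowerSeries.monomial (xx a b) (cc G a b)) a' b' = cc G a' b' -
        (if xx a' b' = xx a b then cc G a b else 0) := by
      unfold cc
      rw [map_sub, MvPowerSeries.coeff_monomial]
    rw [h3] at hab
    by_cases he : xx a' b' = xx a b
    · have e1 : a' = a := by rw [← xx_zero a' b', he, xx_zero]
      have e2 : b' = b := by rw [← xx_one a' b', he, xx_one]
      rw [if_pos he, e1, e2, sub_self] at hab
      exact absurd rfl hab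
    · rw [if_neg he, sub_zero] at hab
      rcases h.2 a' b' hab with ⟨rfl, rfl⟩ | h4
      · exact absurd rfl he
      · omega
  refine ⟨r + s, ?_⟩
  have h5 : Lam σ h1 h2 G = Lam σ h1 h2 (MvPowerSeries.monomial (xx a b) (cc G a b)) +
      Lam σ h1 h2 (G - MvPowerSeries.monomial (xx a b) (cc G a b)) := by
    rw [← map_add]
    congr 1
    ring
  rw [h5, hr, hs]
  ring

theorem Val_mul {p1 p2 σ : ℕ} (h1 : 1 ≤ p1) (h2 : 1 ≤ p2) (g g' : Polynomial (PP F)) :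
    Val σ h1 h2 (g * g') = Val σ h1 h2 g * Val σ h1 h2 g' := Polynomial.eval₂_mul _ _

theorem Val_pow {p1 p2 σ : ℕ} (h1 : 1 ≤ p1) (h2 : 1 ≤ p2) (g : Polynomial (PP F)) (n : ℕ) :
    Val σ h1 h2 (g ^ n) = Val σ h1 h2 g ^ n := Polynomial.eval₂_pow _ _ _

theorem Val_C {p1 p2 σ : ℕ} (h1 : 1 ≤ p1) (h2 : 1 ≤ p2) (g : PP F) :
    Val σ h1 h2 (Polynomial.C g) = Lam σ h1 h2 g := Polynomial.eval₂_C _ _

theorem Val_sub_dvd {p1 p2 σ : ℕ} (h1 : 1 ≤ p1) (h2 : 1 ≤ p2) (g : Polynomial (PP F)) :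
    (PowerSeries.X : PowerSeries (Lau F)) ^ (p1 + p2 + σ) ∣
      Val σ h1 h2 g - Lam σ h1 h2 (g.eval (uv F)) := by
  have e1 : Val σ h1 h2 g = (g.map ((Lam σ h1 h2 : PP F →ₐ[F] PowerSeries (Lau F)) :
      PP F →+* PowerSeries (Lau F))).eval (PowerSeries.X ^ (p1 + p2)) := by
    rw [Polynomial.eval_map]
    rfl
  have e2 : Lam σ h1 h2 (g.eval (uv F)) =
      (g.map ((Lam σ h1 h2 : PP F →ₐ[F] PowerSeries (Lau F)) :
      PP F →+* PowerSeries (Lau F))).eval (Lam σ h1 h2 (uv F)) := by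
    rw [Polynomial.eval_map]
    exact (Polynomial.eval₂_at_apply ((Lam σ h1 h2 : PP F →ₐ[F] PowerSeries (Lau F)) :
      PP F →+* PowerSeries (Lau F)) (uv F)).symm
  rw [e1, e2]
  refine dvd_trans ?_ (Polynomial.sub_dvd_eval_sub _ _ _)
  rw [Lam_uv]
  refine ⟨-PowerSeries.C (zY (0, 1) 1), ?_⟩
  ring

end Tube

open Tube

theorem Val_of_leadAt {p1 p2 σ : ℕ} (h1 : 1 ≤ p1) (h2 : 1 ≤ p2) {g : Polynomial (PP F)} {a b : ℕ}
    (h : LeadAt p1 p2 (g.eval (uv F)) a b) (hσ : p1 * a + p2 * b < σ) :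
    ∃ c : F, c ≠ 0 ∧ ∃ r : PowerSeries (Lau F), Val σ h1 h2 g =
      PowerSeries.X ^ (p1 * a + p2 * b) *
        (PowerSeries.C (zY ((a : ℤ) - b, 0) c) + PowerSeries.X * r) := by
  obtain ⟨r, hr⟩ := Lam_lead (σ := σ) h1 h2 (by omega) h
  obtain ⟨s, hs⟩ : (PowerSeries.X : PowerSeries (Lau F)) ^ (p1 * a + p2 * b + 1) ∣
      Val σ h1 h2 g - Lam σ h1 h2 (g.eval (uv F)) :=
    (pow_dvd_pow _ (by omega)).trans (Val_sub_dvd h1 h2 g)
  refine ⟨cc (g.eval (uv F)) a b, h.1, r + s, ?_⟩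
  rw [sub_eq_iff_eq_add.1 hs, hr]
  ring

theorem Val_h {p1 p2 σ : ℕ} (h1 : 1 ≤ p1) (h2 : 1 ≤ p2) :
    Val σ h1 h2 (Polynomial.C (uv F) - Polynomial.X) =
      PowerSeries.X ^ (p1 + p2 + σ) * PowerSeries.C (zY (0, 1) 1) := by
  have e : Val σ h1 h2 (Polynomial.C (uv F) - Polynomial.X) =
      Lam σ h1 h2 (uv F) - PowerSeries.X ^ (p1 + p2) := by
    unfold Val
    rw [Polynomial.eval₂_sub, Polynomial.eval₂_C, Polynomial.eval₂_X]
    rfl
  rw [e, Lam_uv]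
  ring

theorem Tube.coeff_mem (N : Nodal F k δ) {d : ℕ} {g : Polynomial (PP F)}
    (hg : ∀ c, g.coeff c ∈ N.V d) (j : ℕ) :
    ∀ c, ((Polynomial.C (uv F) - Polynomial.X) ^ j * g).coeff c ∈ N.V (k * j + d) := by
  induction j with
  | zero =>
    intro c
    rw [pow_zero, one_mul, mul_zero, zero_add]
    exact hg c
  | succ j ih =>
    intro c
    have e : (Polynomial.C (uv F) - Polynomial.X) ^ (j + 1) * g =
        Polynomial.C (uv F) * ((Polynomial.C (uv F) - Polynomial.X) ^ j * g) -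
          Polynomial.X * ((Polynomial.C (uv F) - Polynomial.X) ^ j * g) := by ring
    have e2 : k * (j + 1) + d = k + (k * j + d) := by ring
    rw [e, Polynomial.coeff_sub, Polynomial.coeff_C_mul, e2]
    refine (N.V _).sub_mem (N.mul_mem N.uv_mem (ih c)) ?_
    rcases c with _ | c
    · rw [Polynomial.mul_coeff_zero, Polynomial.coeff_X_zero, zero_mul]
      exact (N.V _).zero_mem
    · rw [Polynomial.coeff_X_mul]
      have h := N.mul_mem N.one_mem (ih c)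
      rwa [one_mul] at h

theorem exists_section (N : Nodal F k δ) {E j p1 p2 : ℕ} (h1 : 1 ≤ p1) (h2 : 1 ≤ p2) {i : ℤ}
    (hE : k * j ≤ E) (h : Ach N (E - k * j) p1 p2 i) : ∃ σ0 : ℕ, ∀ σ : ℕ, σ0 ≤ σ →
    ∃ g : Polynomial (PP F), (∀ c, g.coeff c ∈ N.V E) ∧ ∃ (ω : ℕ) (r : PowerSeries (Lau F)),
      Val σ h1 h2 g = PowerSeries.X ^ ω *
        (PowerSeries.C (zY (i, (j : ℤ)) 1) + PowerSeries.X * r) := by
  obtain ⟨g, hg, a, b, hab, hl⟩ := h
  refine ⟨p1 * a + p2 * b + 1, fun σ hσ => ?_⟩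
  obtain ⟨c, hc, r, hr⟩ := Val_of_leadAt (σ := σ) h1 h2 hl (by omega)
  refine ⟨Polynomial.C (algebraMap F (PP F) c⁻¹) *
    ((Polynomial.C (uv F) - Polynomial.X) ^ j * g), fun n => ?_,
    (p1 + p2 + σ) * j + (p1 * a + p2 * b),
    PowerSeries.C (zY 0 c⁻¹) * PowerSeries.C (zY (0, 1) 1) ^ j * r, ?_⟩
  · rw [Polynomial.coeff_C_mul, ← Algebra.smul_def]
    have h3 := Tube.coeff_mem N hg j n
    rw [Nat.add_sub_cancel' hE] at h3
    exact (N.V E).smul_mem _ h3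
  · have h4 : Lam σ h1 h2 (algebraMap F (PP F) c⁻¹) =
        (PowerSeries.C (zY 0 c⁻¹) : PowerSeries (Lau F)) :=
      (AlgHom.commutes (Lam (F := F) σ h1 h2) c⁻¹).trans (algMap c⁻¹)
    have h5 : (PowerSeries.C (zY 0 c⁻¹) : PowerSeries (Lau F)) *
        PowerSeries.C (zY (0, 1) 1) ^ j * PowerSeries.C (zY ((a : ℤ) - b, 0) c) =
        PowerSeries.C (zY (i, (j : ℤ)) 1) := by
      rw [← map_pow, ← map_mul, ← map_mul, zY_pow, zY_mul, zY_mul]
      congr 2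
      · ext
        · simp [hab]
        · simp
      · rw [one_pow, mul_one, inv_mul_cancel₀ hc]
    rw [Val_mul, Val_mul, Val_pow, Val_C, Val_h, h4, hr, ← h5, mul_pow, ← pow_mul, pow_add]
    ring

end Pool.Agent.TH836.NS
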