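import Pool.Agent.TH113.NS.Core
import Pool.Agent.TH836.NS.All
import Pool.Agent.TH836.NS.Tube
import Pool.Agent.TH836.NS.PAn
import Pool.Agent.TH836.NS.Lead
import Pool.Agent.TH692.NCBez
import Pool.Agent.TH836.NS.Card

/-! Assembly of the core theorem. -/

namespace Pool.Agent.TH836.NS

variable {F : Type} [Field F] {k : ℕ} {δ : ℝ}

theorem ach_all (N : Nodal F k δ) {η : ℝ} (hη : 0 < η) : ∃ d0 : ℕ, ∀ d : ℕ, d0 ≤ d →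
    ∀ p1 p2 : ℕ, 1 ≤ p1 → 1 ≤ p2 → Nat.Coprime p1 p2 → k * δ * d + 1 < (p1 : ℝ) + p2 →
    ∀ i : ℤ, -(k * δ * d * (p1 / ((p1 : ℝ) + p2))) + η * d ≤ i →
      (i : ℝ) ≤ k * δ * d * (p2 / ((p1 : ℝ) + p2)) - η * d → Ach N d p1 p2 i :=
  ach_all_of N (fun h => N.dim_lower h) (fun a b c d e f => card_ach N a b c d e f)
    (fun h h2 => h.add h2) hη

/-- **the core theorem** -/
theorem core (N : Nodal F k δ) (hδ : 1 ≤ (k : ℝ) ^ 2 * δ) {n : ℕ} (hn : (k : ℝ) ^ 2 * δ ≤ n)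
    {ρ : ℝ} (hρ : 1 < ρ) : ∃ s0 : ℕ, ∀ s : ℕ, s0 ≤ s → ∀ E : ℕ, ρ * (√n * s) ≤ √δ * E →
      LC N n E s :=
  core_of N (ach_all N) (exists_section N) PA_nodal hδ hn hρ

end Pool.Agent.TH836.NS
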