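import Pool.Agent.W607.General

/-!
From separation of jets for all `ε` to the exact inequality at very general points (the end of the
proof of `Pool.Agent.TH880.NB.exact_general`).
-/

namespace Pool.Agent.TH836.NS

open MvPolynomial Filter Topology Pool.Agent.W607

theorem exact_of_sep {N : ℕ} (I : Ideal (MvPolynomial (Fin (N + 1)) ℂ))
    (δ : ℝ) (hδ : 0 < δ) (ℓ : MvPolynomial (Fin (N + 1)) ℂ) (hℓ : ℓ.IsHomogeneous 1)
    (n : ℕ) (hn : 1 ≤ n)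
    (hsepX : ∀ ε : ℝ, 0 < ε → ∃ E s : ℕ, 2 ≤ s ∧
      (E : ℝ) * √δ ≤ (1 + ε) * (√n * ((s : ℝ) - 1)) ∧
      ∃ w : Fin n → Fin (N + 1) → ℂ,
      (∀ q, eval (w q) ℓ = 1) ∧ (∀ q, ∀ f ∈ I, eval (w q) f = 0) ∧ Sep I ℓ E s w) :
      ∃ H : ℕ → MvPolynomial (Fin n × Fin (N + 1)) ℂ,
      (∀ k, ∃ w : Fin n → Fin (N + 1) → ℂ, (∀ q, ∀ f ∈ I, eval (w q) f = 0) ∧
        (∀ q, eval (w q) ℓ = 1) ∧ eval (fun p => w p.1 p.2) (H k) ≠ 0) ∧
      ∀ w : Fin n → Fin (N + 1) → ℂ, (∀ q, ∀ f ∈ I, eval (w q) f = 0) →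
        (∀ q, eval (w q) ℓ = 1) →
        ((∃ k, eval (fun p => w p.1 p.2) (H k) ≠ 0) → Function.Injective w) ∧
        ∀ P : Ideal (MvPolynomial (Fin (N + 1)) ℂ), P.IsPrime → Hmg P → I ≤ P → ∀ e : ℝ,
        Tendsto (fun t : ℕ => (hilb P t : ℝ) / t) atTop (𝓝 e) → ∀ m : Fin n → ℝ,
        (∀ q, Tendsto (fun M : ℕ => 2 * (len P (w q) M : ℝ) / (M : ℝ) ^ 2) atTop (𝓝 (m q))) →
        ∀ k, eval (fun p => w p.1 p.2) (H k) ≠ 0 →
        ∑ q, m q ≤ (1 + 1 / ((k : ℝ) + 1)) * √(n / δ) * e := by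
  have hn0 : 0 < (n : ℝ) := by exact_mod_cast hn
  choose E s hs hnum w0 hw01 hw0I hsep0 using fun k : ℕ =>
    hsepX (1 / ((k : ℝ) + 1)) (by positivity)
  choose H hH0 hH using fun k => Sep.exists_open (I := I) (ℓ := ℓ) (E := E k) (s := s k)
    (w0 := w0 k) (hsep0 k)
  refine ⟨H, fun k => ⟨w0 k, hw0I k, hw01 k, hH0 k⟩, fun w hwI hw1 => ⟨?_, ?_⟩⟩
  · rintro ⟨k, hk⟩
    have := hs k
    exact (hH k w hk).injective (by omega) hw1 hwI
  · intro P hP hPh hIP e he m hm k hk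
    have hsep := hH k w hk
    have hsk := hs k
    have hinj := hsep.injective (by omega) hw1 hwI
    have h1 := Pool.Agent.W601.Curve.curve_ineq I ℓ hℓ (E k) (s k) (by omega) w hinj hw1 hsep P hP
      hPh hIP e he m hm
    have he0 : 0 ≤ e := ge_of_tendsto' he fun t => by positivity
    have hqδ : 0 < √δ := Real.sqrt_pos.2 hδ
    rw [Real.sqrt_div hn0.le]
    have hs1 : (1 : ℝ) < s k := by
      exact_mod_cast hs k
    have h2 : ((s k : ℝ) - 1) * √δ * ∑ q, m q ≤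
        ((s k : ℝ) - 1) * √δ * ((1 + 1 / ((k : ℝ) + 1)) * (√n / √δ) * e) := by
      calc ((s k : ℝ) - 1) * √δ * ∑ q, m q = (((s k : ℝ) - 1) * ∑ q, m q) * √δ := by ring
        _ ≤ (e * E k) * √δ := mul_le_mul_of_nonneg_right h1 hqδ.le
        _ = e * (E k * √δ) := by ring
        _ ≤ e * ((1 + 1 / ((k : ℝ) + 1)) * (√n * ((s k : ℝ) - 1))) :=
          mul_le_mul_of_nonneg_left (hnum k) he0
        _ = ((s k : ℝ) - 1) * √δ * ((1 + 1 / ((k : ℝ) + 1)) * (√n / √δ) * e) := by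
          field_simp
    exact le_of_mul_le_mul_left h2 (mul_pos (by linarith) hqδ)

end Pool.Agent.TH836.NS
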