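import Pool.Agent.TH836.NS.Proj

/-!
# Descent of the separation of jets from an extension field of `ℂ` to `ℂ` (job NX-SEP, second half)
-/

set_option autoImplicit false

namespace Pool.Agent.TH836.NS

open Pool.Agent.W607

namespace SepDesc

open MvPolynomial Pool.Agent.H932R5

section
variable {K : Type} [Field K] [Algebra ℂ K] {N n : ℕ}

/-- membership in a power of the maximal ideal of a point -/
theorem mem_mwK {w : Fin (N + 1) → K} {s : ℕ} {f : MvPolynomial (Fin (N + 1)) K} :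
    f ∈ (mw w) ^ s ↔ ∀ α : Fin (N + 1) →₀ ℕ, Finsupp.degree α < s → coeff α (shift w f) = 0 :=
  mem_pt_pow_iff

/-- evaluation of the coordinates at a point over `K` -/
noncomputable def ew (w : Fin n → Fin (N + 1) → K) : MvPolynomial (Fin n × Fin (N + 1)) ℂ →+* K :=
  (aeval (fun p : Fin n × Fin (N + 1) => w p.1 p.2) : _ →ₐ[ℂ] K)

theorem map_gshiftK (i : Fin n) (w : Fin n → Fin (N + 1) → K)
    (f : MvPolynomial (Fin (N + 1)) ℂ) :
    map (ew w) (gshift ℂ N n i f) = shift (w i) (map (algebraMap ℂ K) f) := by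
  have h : (map (ew w)).comp (gshift ℂ N n i) =
      (shift (w i) : MvPolynomial (Fin (N + 1)) K →+* MvPolynomial (Fin (N + 1)) K).comp
        (map (algebraMap ℂ K)) := by
    refine MvPolynomial.ringHom_ext (fun c => ?_) fun j => ?_
    · rw [RingHom.comp_apply, gshift, eval₂Hom_C, RingHom.comp_apply, map_C, RingHom.comp_apply,
        map_C, RingHom.coe_coe, shift_C]
      congr 1
      exact (aeval (fun p : Fin n × Fin (N + 1) => w p.1 p.2)).commutes c
    · rw [RingHom.comp_apply, gshift, eval₂Hom_X', map_add, map_X, map_C, RingHom.comp_apply,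
        map_X, RingHom.coe_coe, shift_X]
      congr 2
      exact aeval_X _ _
  exact congrArg (fun φ : MvPolynomial (Fin (N + 1)) ℂ →+* MvPolynomial (Fin (N + 1)) K => φ f) h

/-- the conditions -/
abbrev Cn (N n s : ℕ) : Type := Fin n × {α : Fin (N + 1) →₀ ℕ // α ∈ dg N s}

/-- the generators -/
abbrev Gi (N n E : ℕ) (J : Ideal (MvPolynomial (Fin (N + 1)) ℂ)) : Type :=
  {β : Fin (N + 1) →₀ ℕ // Finsupp.degree β = E} ⊕ (J × Fin n)

/-- homogeneous part -/
noncomputable def Fp {E : ℕ} {J : Ideal (MvPolynomial (Fin (N + 1)) ℂ)} :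
    Gi N n E J → MvPolynomial (Fin (N + 1)) ℂ
  | Sum.inl β => monomial β.1 1
  | Sum.inr _ => 0

/-- the part in `J` -/
noncomputable def Gp {E : ℕ} {J : Ideal (MvPolynomial (Fin (N + 1)) ℂ)} :
    Gi N n E J → Fin n → MvPolynomial (Fin (N + 1)) ℂ
  | Sum.inl _, _ => 0
  | Sum.inr g, q => if g.2 = q then g.1.1 else 0

theorem Fp_hom {E : ℕ} {J : Ideal (MvPolynomial (Fin (N + 1)) ℂ)} (i : Gi N n E J) :
    (Fp i).IsHomogeneous E := by
  rcases i with β | g
  · exact isHomogeneous_monomial _ β.2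
  · exact isHomogeneous_zero _ _ _

theorem Gp_mem {E : ℕ} {J : Ideal (MvPolynomial (Fin (N + 1)) ℂ)} (i : Gi N n E J) (q : Fin n) :
    Gp i q ∈ J := by
  rcases i with β | g
  · exact J.zero_mem
  · show (if g.2 = q then g.1.1 else 0) ∈ J
    split_ifs
    · exact g.1.2
    · exact J.zero_mem

/-- the generic column -/
noncomputable def col {E s : ℕ} {J : Ideal (MvPolynomial (Fin (N + 1)) ℂ)} (i : Gi N n E J)
    (j' : Cn N n s) : MvPolynomial (Fin n × Fin (N + 1)) ℂ :=
  coeff j'.2.1 (gshift ℂ N n j'.1 (Fp i + Gp i j'.1))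

/-- the column at a point -/
noncomputable def vec {E s : ℕ} {J : Ideal (MvPolynomial (Fin (N + 1)) ℂ)}
    (w : Fin n → Fin (N + 1) → K) (i : Gi N n E J) : Cn N n s → K :=
  fun j' => ew w (col i j')

theorem vec_apply {E s : ℕ} {J : Ideal (MvPolynomial (Fin (N + 1)) ℂ)}
    (w : Fin n → Fin (N + 1) → K) (i : Gi N n E J) (j' : Cn N n s) :
    vec w i j' = coeff j'.2.1 (shift (w j'.1) (map (algebraMap ℂ K) (Fp i + Gp i j'.1))) := by
  unfold vec col
  rw [← map_gshiftK, coeff_map]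

/-- the coefficients of the translates -/
noncomputable def cf (s : ℕ) (w : Fin n → Fin (N + 1) → K) :
    (Fin n → MvPolynomial (Fin (N + 1)) K) →ₗ[K] (Cn N n s → K) where
  toFun f := fun j' => coeff j'.2.1 (shift (w j'.1) (f j'.1))
  map_add' f g := by
    funext q
    rw [Pi.add_apply, map_add, coeff_add]
    rfl
  map_smul' c f := by
    funext q
    rw [Pi.smul_apply, map_smul, coeff_smul]
    rfl

theorem cf_apply (s : ℕ) (w : Fin n → Fin (N + 1) → K)
    (f : Fin n → MvPolynomial (Fin (N + 1)) K) (j' : Cn N n s) :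
    cf s w f j' = coeff j'.2.1 (shift (w j'.1) (f j'.1)) := rfl

theorem vec_inl {E s : ℕ} {J : Ideal (MvPolynomial (Fin (N + 1)) ℂ)}
    (w : Fin n → Fin (N + 1) → K) (β : {β : Fin (N + 1) →₀ ℕ // Finsupp.degree β = E}) :
    vec (s := s) (J := J) w (Sum.inl β) = cf s w (fun _ => monomial β.1 1) := by
  funext j'
  rw [vec_apply, cf_apply]
  simp only [Fp, Gp, add_zero, map_monomial, map_one]

theorem vec_inr {E s : ℕ} {J : Ideal (MvPolynomial (Fin (N + 1)) ℂ)}
    (w : Fin n → Fin (N + 1) → K) (g : J) (q : Fin n) :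
    vec (E := E) (s := s) w (Sum.inr (g, q)) =
      cf s w (fun q' => if q = q' then map (algebraMap ℂ K) g.1 else 0) := by
  funext j'
  rw [vec_apply, cf_apply]
  simp only [Fp, Gp, zero_add]
  split_ifs with h
  · rfl
  · rw [map_zero]

/-- forms of degree `E` -/
theorem span_F {E s : ℕ} {J : Ideal (MvPolynomial (Fin (N + 1)) ℂ)}
    (w : Fin n → Fin (N + 1) → K) {F : MvPolynomial (Fin (N + 1)) K} (hF : F.IsHomogeneous E) :
    cf s w (fun _ => F) ∈ Submodule.span K (Set.range (vec (E := E) (s := s) (J := J) w)) := by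
  have h1 : (fun _ : Fin n => F) =
      ∑ β ∈ F.support, coeff β F • (fun _ : Fin n => (monomial β (1 : K))) := by
    funext q
    rw [Finset.sum_apply]
    conv_lhs => rw [F.as_sum]
    refine Finset.sum_congr rfl fun β _ => ?_
    rw [Pi.smul_apply, smul_monomial, smul_eq_mul, mul_one]
  rw [h1, map_sum]
  refine Submodule.sum_mem _ fun β hβ => ?_
  rw [map_smul]
  refine Submodule.smul_mem _ _ (Submodule.subset_span ⟨Sum.inl ⟨β, ?_⟩, vec_inl w _⟩)
  have h5 := hF (mem_support_iff.1 hβ)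
  rw [Finsupp.degree_eq_weight_one]
  exact h5

/-- elements of the ideal at one point -/
theorem span_G {E s : ℕ} {J : Ideal (MvPolynomial (Fin (N + 1)) ℂ)}
    (w : Fin n → Fin (N + 1) → K) (q : Fin n) {G : MvPolynomial (Fin (N + 1)) K}
    (hG : G ∈ J.map (map (algebraMap ℂ K))) :
    cf s w (fun q' => if q = q' then G else 0) ∈
      Submodule.span K (Set.range (vec (E := E) (s := s) (J := J) w)) := by
  classical
  set P := Submodule.span K (Set.range (vec (E := E) (s := s) (J := J) w)) with hP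
  -- the linear map
  let Φ : MvPolynomial (Fin (N + 1)) K →ₗ[K] (Cn N n s → K) :=
    (cf s w).comp (LinearMap.single K (fun _ : Fin n => MvPolynomial (Fin (N + 1)) K) q)
  have hΦ : ∀ G, Φ G = cf s w (fun q' => if q = q' then G else 0) := by
    intro G
    show cf s w (Pi.single q G) = _
    congr 1
    funext q'
    by_cases h : q = q'
    · subst h; rw [Pi.single_eq_same, if_pos rfl]
    · rw [Pi.single_eq_of_ne (Ne.symm h), if_neg h]
  rw [← hΦ]
  have h1 : ∀ (a : MvPolynomial (Fin (N + 1)) K) (g : MvPolynomial (Fin (N + 1)) ℂ), g ∈ J →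
      Φ (a * map (algebraMap ℂ K) g) ∈ P := by
    intro a g hg
    rw [a.as_sum, Finset.sum_mul, map_sum]
    refine Submodule.sum_mem _ fun β _ => ?_
    have h2 : monomial β (coeff β a) * map (algebraMap ℂ K) g =
        coeff β a • map (algebraMap ℂ K) (monomial β 1 * g) := by
      rw [map_mul, map_monomial, map_one, ← smul_mul_assoc, smul_monomial, smul_eq_mul, mul_one]
    rw [h2, map_smul, hΦ]
    refine Submodule.smul_mem _ _ (Submodule.subset_span
      ⟨Sum.inr (⟨monomial β 1 * g, J.mul_mem_left _ hg⟩, q), vec_inr w _ q⟩)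
  have h3 : ∀ a : MvPolynomial (Fin (N + 1)) K, Φ (a * G) ∈ P := by
    refine Submodule.span_induction (p := fun G _ => ∀ a, Φ (a * G) ∈ P) ?_ ?_ ?_ ?_ hG
    · rintro _ ⟨g, hg, rfl⟩ a
      exact h1 a g hg
    · intro a
      rw [mul_zero, map_zero]; exact P.zero_mem
    · intro x y _ _ hx hy a
      rw [mul_add, map_add]; exact P.add_mem (hx a) (hy a)
    · intro b x _ hx a
      rw [smul_eq_mul, ← mul_assoc]
      exact hx (a * b)
  have h4 := h3 1
  rwa [one_mul] at h4

/-- **step A**: separation gives a spanning family -/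
theorem span_top {E s : ℕ} {I : Ideal (MvPolynomial (Fin (N + 1)) ℂ)}
    {ℓ : MvPolynomial (Fin (N + 1)) ℂ} {w : Fin n → Fin (N + 1) → K} (h : SepK K I ℓ E s w) :
    Submodule.span K (Set.range (vec (E := E) (s := s) (J := I ⊔ Ideal.span {ℓ - 1}) w)) = ⊤ := by
  classical
  set J : Ideal (MvPolynomial (Fin (N + 1)) ℂ) := I ⊔ Ideal.span {ℓ - 1} with hJ
  set P := Submodule.span K (Set.range (vec (E := E) (s := s) (J := J) w)) with hP
  have hJK : I.map (map (algebraMap ℂ K)) ⊔ Ideal.span {map (algebraMap ℂ K) ℓ - 1} =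
      J.map (map (algebraMap ℂ K)) := by
    rw [hJ, Ideal.map_sup, Ideal.map_span, Set.image_singleton, map_sub, map_one]
  rw [eq_top_iff, ← (Pi.basisFun K (Cn N n s)).span_eq, Submodule.span_le]
  rintro _ ⟨j, rfl⟩
  show (Pi.basisFun K (Cn N n s)) j ∈ P
  rw [Pi.basisFun_apply]
  obtain ⟨F, hF, hF1, hF2⟩ := h j.1 (shift (fun i => - w j.1 i) (monomial j.2.1 1))
  set f0 : MvPolynomial (Fin (N + 1)) K := shift (fun i => - w j.1 i) (monomial j.2.1 1) with hf
  have hf0 : shift (w j.1) f0 = monomial j.2.1 1 := by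
    have h1 := shift_shift (fun i => - w j.1 i) (monomial j.2.1 (1 : K))
    simp only [neg_neg] at h1
    exact h1
  have hG : ∀ q' : Fin n, ∃ G ∈ J.map (map (algebraMap ℂ K)),
      F - G - (if q' = j.1 then f0 else 0) ∈ (mw (w q')) ^ s := by
    intro q'
    by_cases hq : q' = j.1
    · rw [if_pos hq, hq]
      rw [hJK] at hF1
      obtain ⟨G, hG, m, hm, hGm⟩ := Submodule.mem_sup.1 hF1
      refine ⟨G, hG, ?_⟩
      have : F - G - f0 = m := by
        rw [sub_right_comm, ← hGm]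
        ring
      rw [this]
      exact hm
    · rw [if_neg hq]
      have h2 := hF2 q' hq
      rw [hJK] at h2
      obtain ⟨G, hG, m, hm, hGm⟩ := Submodule.mem_sup.1 h2
      refine ⟨G, hG, ?_⟩
      have : F - G - 0 = m := by
        rw [← hGm]
        ring
      rw [this]
      exact hm
  choose G hGJ hGm using hG
  have hkey : (Pi.single j (1 : K) : Cn N n s → K) = cf s w (fun _ => F) -
      ∑ q, cf s w (fun q' => if q = q' then G q else 0) := by
    funext j'
    rw [Pi.sub_apply, Finset.sum_apply]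
    simp only [cf_apply]
    have h1 : ∑ q, coeff j'.2.1 (shift (w j'.1) (if q = j'.1 then G q else 0)) =
        coeff j'.2.1 (shift (w j'.1) (G j'.1)) := by
      rw [Finset.sum_eq_single j'.1]
      · rw [if_pos rfl]
      · intro q _ hq
        rw [if_neg hq, map_zero, coeff_zero]
      · intro h; exact absurd (Finset.mem_univ _) h
    rw [h1]
    have h2 := mem_mwK.1 (hGm j'.1) j'.2.1 (mem_dg.1 j'.2.2)
    rw [map_sub, coeff_sub, sub_eq_zero, map_sub, coeff_sub] at h2
    rw [h2]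
    by_cases h3 : j' = j
    · rw [h3, if_pos rfl, hf0, coeff_monomial, if_pos rfl, Pi.single_eq_same]
    · rw [Pi.single_eq_of_ne h3]
      by_cases h4 : j'.1 = j.1
      · rw [if_pos h4, h4, hf0, coeff_monomial, if_neg]
        intro h5
        exact h3 (Prod.ext h4 (Subtype.ext h5.symm))
      · rw [if_neg h4, map_zero, coeff_zero]
  rw [hkey]
  exact P.sub_mem (span_F w hF) (Submodule.sum_mem _ fun q _ => span_G w q (hGJ q))

/-- **step B**: a maximal minor -/
theorem exists_minor {C : Type} [Fintype C] [DecidableEq C] {ι : Type} (v : ι → C → K)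
    (h : Submodule.span K (Set.range v) = ⊤) :
    ∃ e : C → ι, (Matrix.of fun j' j => v (e j) j').det ≠ 0 := by
  obtain ⟨b, hb, hb1, hb2⟩ := exists_linearIndependent K (Set.range v)
  rw [h] at hb1
  let B : Module.Basis b K (C → K) := Module.Basis.mk hb2 (by rw [Subtype.range_coe, hb1])
  let σ : C ≃ b := (Pi.basisFun K C).indexEquiv B
  have hs : ∀ j : C, ∃ i, v i = (σ j : C → K) := fun j => hb (σ j).2
  choose e he using hs
  refine ⟨e, ?_⟩
  have h1 : LinearIndependent K (fun j => v (e j)) := by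
    have h2 : (fun j => v (e j)) = (fun x : b => (x : C → K)) ∘ σ := by
      funext j
      exact he j
    rw [h2]
    exact hb2.comp _ σ.injective
  have h3 : IsUnit (Matrix.of fun j j' => v (e j) j' : Matrix C C K) := by
    rw [← Matrix.linearIndependent_rows_iff_isUnit]
    exact h1
  have h4 : (Matrix.of fun j' j => v (e j) j' : Matrix C C K) =
      (Matrix.of fun j j' => v (e j) j' : Matrix C C K).transpose := rfl
  rw [h4, Matrix.det_transpose]
  exact ((Matrix.isUnit_iff_isUnit_det _).1 h3).ne_zero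

/-- **step C**: the minor does not vanish at a complex point -/
theorem sep_of_minor {E s : ℕ} [DecidableEq (Cn N n s)] {I : Ideal (MvPolynomial (Fin (N + 1)) ℂ)}
    {ℓ : MvPolynomial (Fin (N + 1)) ℂ} (w : Fin n → Fin (N + 1) → ℂ)
    (e : Cn N n s → Gi N n E (I ⊔ Ideal.span {ℓ - 1}))
    (h : (Matrix.of fun j' j => vec w (e j) j' : Matrix (Cn N n s) (Cn N n s) ℂ).det ≠ 0) :
    Sep I ℓ E s w := by
  obtain ⟨A, hA⟩ : ∃ A : Matrix (Cn N n s) (Cn N n s) ℂ,
      A = Matrix.of fun j' j => vec w (e j) j' := ⟨_, rfl⟩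
  rw [← hA] at h
  have hu : IsUnit A.det := isUnit_iff_ne_zero.2 h
  have hid : ∀ (i : Gi N n E (I ⊔ Ideal.span {ℓ - 1})) (j' : Cn N n s),
      vec w i j' = coeff j'.2.1 (shift (w j'.1) (Fp i + Gp i j'.1)) := by
    intro i j'
    rw [vec_apply]
    congr 2
    exact MvPolynomial.map_id _
  intro q f
  let T : Cn N n s → ℂ := fun j' => if j'.1 = q then coeff j'.2.1 (shift (w q) f) else 0
  let c : Cn N n s → ℂ := A⁻¹.mulVec T
  have hc : A.mulVec c = T := by
    rw [Matrix.mulVec_mulVec, Matrix.mul_nonsing_inv _ hu, Matrix.one_mulVec]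
  set F : MvPolynomial (Fin (N + 1)) ℂ := ∑ j, C (c j) * Fp (e j) with hF
  have hFh : F.IsHomogeneous E := by
    refine IsHomogeneous.sum _ _ _ fun j _ => ?_
    have := (isHomogeneous_C (Fin (N + 1)) (c j)).mul (Fp_hom (e j))
    rwa [zero_add] at this
  have hkey : ∀ q', F - (if q' = q then f else 0) ∈ I ⊔ Ideal.span {ℓ - 1} ⊔ (mw (w q')) ^ s := by
    intro q'
    have h1 : F - (if q' = q then f else 0) =
        (∑ j, C (c j) * (- Gp (e j) q')) +
          ((∑ j, C (c j) * (Fp (e j) + Gp (e j) q')) - (if q' = q then f else 0)) := by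
      simp only [hF, mul_add, mul_neg, Finset.sum_add_distrib, Finset.sum_neg_distrib]
      ring
    rw [h1]
    refine Submodule.add_mem_sup (Submodule.sum_mem _ fun j _ =>
      Ideal.mul_mem_left _ _ (Submodule.neg_mem _ (Gp_mem (e j) q'))) ?_
    rw [mem_mw_pow_iff]
    intro α hα
    have h2 := congrFun hc ⟨q', ⟨α, mem_dg.2 hα⟩⟩
    have h2' : ∑ j, A ⟨q', ⟨α, mem_dg.2 hα⟩⟩ j * c j = T ⟨q', ⟨α, mem_dg.2 hα⟩⟩ := h2
    have h2'' : ∀ j, A ⟨q', ⟨α, mem_dg.2 hα⟩⟩ j =
        coeff α (shift (w q') (Fp (e j) + Gp (e j) q')) := by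
      intro j
      rw [hA]
      exact hid (e j) _
    simp only [h2''] at h2'
    rw [map_sub, coeff_sub, sub_eq_zero, map_sum, coeff_sum]
    have h3 : ∀ j, coeff α (shift (w q') (C (c j) * (Fp (e j) + Gp (e j) q'))) =
        coeff α (shift (w q') (Fp (e j) + Gp (e j) q')) * c j := by
      intro j
      rw [map_mul, shift_C, coeff_C_mul, mul_comm]
    simp only [h3]
    rw [h2']
    simp only [T]
    by_cases hq : q' = q
    · rw [if_pos hq, if_pos hq, hq]
    · rw [if_neg hq, if_neg hq, map_zero, coeff_zero]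
  refine ⟨F, hFh, ?_, fun q' hq' => ?_⟩
  · have := hkey q
    rwa [if_pos rfl] at this
  · have := hkey q'
    rwa [if_neg hq', sub_zero] at this

/-- **step D**: a complex point where `H` does not vanish -/
theorem exists_point (I : Ideal (MvPolynomial (Fin (N + 1)) ℂ))
    (ℓ : MvPolynomial (Fin (N + 1)) ℂ) {w : Fin n → Fin (N + 1) → K}
    (hℓ : ∀ q, aeval (w q) ℓ = 1) (hI : ∀ q, ∀ f ∈ I, aeval (w q) f = 0)
    (H : MvPolynomial (Fin n × Fin (N + 1)) ℂ) (hH : ew w H ≠ 0) :
    ∃ w' : Fin n → Fin (N + 1) → ℂ, (∀ q, eval (w' q) ℓ = 1) ∧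
      (∀ q, ∀ f ∈ I, eval (w' q) f = 0) ∧ ew w' H ≠ 0 := by
  classical
  let ρ : Fin n → MvPolynomial (Fin (N + 1)) ℂ →ₐ[ℂ] MvPolynomial (Fin n × Fin (N + 1)) ℂ :=
    fun q => rename (fun i => (q, i))
  let S : Set (MvPolynomial (Fin n × Fin (N + 1)) ℂ) :=
    {g | (∃ q, ∃ f ∈ I, g = ρ q f) ∨ ∃ q, g = ρ q ℓ - 1}
  have hρ : ∀ {L : Type} [Field L] [Algebra ℂ L] (v : Fin n × Fin (N + 1) → L) (q : Fin n)
      (f : MvPolynomial (Fin (N + 1)) ℂ), aeval v (ρ q f) = aeval (fun i => v (q, i)) f := by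
    intro L _ _ v q f
    simp only [ρ, aeval_rename]
    rfl
  by_contra hcon
  push Not at hcon
  have h1 : H ∈ vanishingIdeal ℂ (zeroLocus ℂ (Ideal.span S)) := by
    rw [mem_vanishingIdeal_iff]
    intro v hv
    rw [mem_zeroLocus_iff] at hv
    have h2 := hcon (fun q i => v (q, i)) (fun q => ?_) (fun q f hf => ?_)
    · exact h2
    · have := hv (ρ q ℓ - 1) (Ideal.subset_span (Or.inr ⟨q, rfl⟩))
      rw [map_sub, map_one, hρ, sub_eq_zero] at this
      rw [← this]
      rfl
    · have := hv (ρ q f) (Ideal.subset_span (Or.inl ⟨q, f, hf, rfl⟩))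
      rw [hρ] at this
      rw [← this]
      rfl
  rw [vanishingIdeal_zeroLocus_eq_radical] at h1
  obtain ⟨k, hk⟩ := h1
  have h3 : Ideal.span S ≤ RingHom.ker (ew w) := by
    rw [Ideal.span_le]
    rintro g (⟨q, f, hf, rfl⟩ | ⟨q, rfl⟩)
    · show ew w (ρ q f) = 0
      exact (hρ _ q f).trans (hI q f hf)
    · show ew w (ρ q ℓ - 1) = 0
      rw [map_sub, map_one, sub_eq_zero]
      exact (hρ _ q ℓ).trans (hℓ q)
  have h4 : ew w (H ^ k) = 0 := h3 hk
  rw [map_pow] at h4
  exact hH (eq_zero_of_pow_eq_zero h4)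

end

end SepDesc

theorem sep_descent (K : Type) [Field K] [Algebra ℂ K] {N n : ℕ} (I : Ideal (MvPolynomial (Fin (N + 1)) ℂ)) (ℓ : MvPolynomial (Fin (N + 1)) ℂ)
    {E s : ℕ} {w : Fin n → Fin (N + 1) → K} (hℓ : ∀ q, MvPolynomial.aeval (w q) ℓ = 1)
    (hI : ∀ q, ∀ f ∈ I, MvPolynomial.aeval (w q) f = 0) (h : SepK K I ℓ E s w) :
    ∃ w' : Fin n → Fin (N + 1) → ℂ, (∀ q, MvPolynomial.eval (w' q) ℓ = 1) ∧
      (∀ q, ∀ f ∈ I, MvPolynomial.eval (w' q) f = 0) ∧ Pool.Agent.W607.Sep I ℓ E s w' := by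
  classical
  obtain ⟨e, he⟩ := SepDesc.exists_minor (ι := SepDesc.Gi N n E (I ⊔ Ideal.span {ℓ - 1}))
    (SepDesc.vec (s := s) w) (SepDesc.span_top h)
  let M : Matrix (SepDesc.Cn N n s) (SepDesc.Cn N n s) (MvPolynomial (Fin n × Fin (N + 1)) ℂ) :=
    Matrix.of fun j' j => SepDesc.col (e j) j'
  have hM : ∀ {L : Type} [Field L] [Algebra ℂ L] (v : Fin n → Fin (N + 1) → L),
      SepDesc.ew v M.det = (Matrix.of fun j' j => SepDesc.vec v (e j) j').det := by
    intro L _ _ v
    rw [RingHom.map_det]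
    rfl
  obtain ⟨w', h1, h2, h3⟩ := SepDesc.exists_point I ℓ hℓ hI M.det (by rw [hM]; exact he)
  refine ⟨w', h1, h2, SepDesc.sep_of_minor w' e ?_⟩
  rw [← hM]
  exact h3

end Pool.Agent.TH836.NS
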