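import Pool.Agent.TH836.NS.CoreAll
import Pool.Agent.TH836.NS.Exact
import Pool.Agent.TH836.NS.SepDesc
import Pool.Agent.TH522.NX.SepK2
import Pool.Agent.TH13.NB.Nod

/-!
# Separation of jets at `n ≥ k² δ` general points of a surface with an integral nodal member of
`|k O(1)|`
-/

namespace Pool.Agent.TH836.NS

open Filter Topology Pool.Agent.TH176.Nag Pool.Agent.TH880.NB

section proj
open MvPolynomial Pool.Agent.W607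

variable {N : ℕ}

theorem sep_of_LC (I : Ideal (MvPolynomial (Fin (N + 1)) ℂ)) (hIh : Hmg I)
    {ℓ F₀ : MvPolynomial (Fin (N + 1)) ℂ} (hℓ : ℓ.IsHomogeneous 1)
    {x : Fin (N + 1) → PP ℂ} (hx : FormalNode I ℓ F₀ x)
    (hsm : Module.finrank ℂ (MvPolynomial (Fin (N + 1)) ℂ ⧸
      (I ⊔ (mw fun i => cc (x i) 0 0) ^ 2)) = 4)
    {k : ℕ} {δ : ℝ} (V : Nodal ℂ k δ) (hV : ∀ d, V.V d =
      (homogeneousSubmodule (Fin (N + 1)) ℂ d).map (aeval x : _ →ₐ[ℂ] PP ℂ).toLinearMap)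
    {n E s : ℕ} (h : LC V n E s) :
    ∃ w : Fin n → Fin (N + 1) → ℂ, (∀ q, eval (w q) ℓ = 1) ∧
      (∀ q, ∀ f ∈ I, eval (w q) f = 0) ∧ Sep I ℓ E s w := by
  obtain ⟨K, _, _, w, h1, h2, h3⟩ := Pool.Agent.TH522.NX.sepK_of_LC I hIh hℓ hx hsm V hV h
  exact sep_descent K I ℓ h1 h2 h3

theorem sep_nodal (I P₀ : Ideal (MvPolynomial (Fin (N + 1)) ℂ)) (hI : I.IsPrime) (hIh : Hmg I)
    {δ : ℝ} (hδ : 0 < δ)
    (hgr : Tendsto (fun t : ℕ => 2 * (hilb I t : ℝ) / (t : ℝ) ^ 2) atTop (𝓝 δ))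
    {ℓ F₀ : MvPolynomial (Fin (N + 1)) ℂ} {k : ℕ} (hk : 1 ≤ k) (hℓ : ℓ.IsHomogeneous 1)
    (hF : F₀.IsHomogeneous k) (hF0 : F₀ ∉ I) (hP : P₀.IsPrime) (hPh : Hmg P₀)
    (hsat : ∃ c : ℕ, ∀ t : ℕ, c ≤ t → ∀ f : MvPolynomial (Fin (N + 1)) ℂ, f.IsHomogeneous t →
      (f ∈ P₀ ↔ f ∈ I ⊔ Ideal.span {F₀}))
    {x : Fin (N + 1) → PP ℂ} (hx : FormalNode I ℓ F₀ x)
    (hsm : Module.finrank ℂ (MvPolynomial (Fin (N + 1)) ℂ ⧸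
      (I ⊔ (mw fun i => cc (x i) 0 0) ^ 2)) = 4)
    (hδ1 : 1 ≤ (k : ℝ) ^ 2 * δ) {n : ℕ} (hn : (k : ℝ) ^ 2 * δ ≤ n) {ε : ℝ} (hε : 0 < ε) :
    ∃ E s : ℕ, 2 ≤ s ∧
      (E : ℝ) * √δ ≤ (1 + ε) * (√n * ((s : ℝ) - 1)) ∧
      ∃ w : Fin n → Fin (N + 1) → ℂ,
      (∀ q, eval (w q) ℓ = 1) ∧ (∀ q, ∀ f ∈ I, eval (w q) f = 0) ∧ Sep I ℓ E s w := by
  obtain ⟨V, hV⟩ := Pool.Agent.TH13.NB.exists_nodal I P₀ hI hIh hδ hgr hk hℓ hF hF0 hP hPh hsat hx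
  obtain ⟨s0, hs0⟩ := core V hδ1 hn (ρ := 1 + ε / 2) (by linarith)
  have hn1 : (1 : ℝ) ≤ n := hδ1.trans hn
  have hqn : (1 : ℝ) ≤ √n := by rw [Real.one_le_sqrt]; exact hn1
  have hqδ : 0 < √δ := Real.sqrt_pos.2 hδ
  obtain ⟨s1, hs1⟩ := exists_nat_ge ((√δ + (1 + ε) * √n) / (ε / 2 * √n))
  set s : ℕ := max (max s0 s1) 2 with hs
  have h1 : s0 ≤ s := (le_max_left _ _).trans (le_max_left _ _)
  have h2 : s1 ≤ s := (le_max_right _ _).trans (le_max_left _ _)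
  have h3 : 2 ≤ s := le_max_right _ _
  set E : ℕ := ⌈(1 + ε / 2) * (√n * s) / √δ⌉₊ with hE
  have hE1 : (1 + ε / 2) * (√n * s) ≤ √δ * E := by
    have := Nat.le_ceil ((1 + ε / 2) * (√n * s) / √δ)
    rw [div_le_iff₀ hqδ] at this
    linarith
  have hE2 : (E : ℝ) * √δ ≤ (1 + ε / 2) * (√n * s) + √δ := by
    have := (Nat.ceil_lt_add_one (a := (1 + ε / 2) * (√n * s) / √δ) (by positivity)).le
    calc (E : ℝ) * √δ ≤ ((1 + ε / 2) * (√n * s) / √δ + 1) * √δ := by gcongr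
      _ = (1 + ε / 2) * (√n * s) + √δ := by field_simp
  refine ⟨E, s, h3, ?_, ?_⟩
  · have h4 : (√δ + (1 + ε) * √n) ≤ ε / 2 * √n * s := by
      have h5 : (√δ + (1 + ε) * √n) / (ε / 2 * √n) ≤ s := hs1.trans (by exact_mod_cast h2)
      rw [div_le_iff₀ (by positivity)] at h5
      linarith
    linarith
  · exact sep_of_LC I hIh hℓ hx hsm V hV (hs0 s h1 E hE1)

/-- **exact inequality at `n ≥ k² δ` very general points** -/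
theorem exact_nodal (I P₀ : Ideal (MvPolynomial (Fin (N + 1)) ℂ)) (hI : I.IsPrime) (hIh : Hmg I)
    {δ : ℝ} (hδ : 0 < δ)
    (hgr : Tendsto (fun t : ℕ => 2 * (hilb I t : ℝ) / (t : ℝ) ^ 2) atTop (𝓝 δ))
    {ℓ F₀ : MvPolynomial (Fin (N + 1)) ℂ} {k : ℕ} (hk : 1 ≤ k) (hℓ : ℓ.IsHomogeneous 1)
    (hF : F₀.IsHomogeneous k) (hF0 : F₀ ∉ I) (hP : P₀.IsPrime) (hPh : Hmg P₀)
    (hsat : ∃ c : ℕ, ∀ t : ℕ, c ≤ t → ∀ f : MvPolynomial (Fin (N + 1)) ℂ, f.IsHomogeneous t →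
      (f ∈ P₀ ↔ f ∈ I ⊔ Ideal.span {F₀}))
    {x : Fin (N + 1) → PP ℂ} (hx : FormalNode I ℓ F₀ x)
    (hsm : Module.finrank ℂ (MvPolynomial (Fin (N + 1)) ℂ ⧸
      (I ⊔ (mw fun i => cc (x i) 0 0) ^ 2)) = 4)
    (hδ1 : 1 ≤ (k : ℝ) ^ 2 * δ) {n : ℕ} (hn : (k : ℝ) ^ 2 * δ ≤ n) :
    ∃ H : ℕ → MvPolynomial (Fin n × Fin (N + 1)) ℂ,
      (∀ k, ∃ w : Fin n → Fin (N + 1) → ℂ, (∀ q, ∀ f ∈ I, eval (w q) f = 0) ∧
        (∀ q, eval (w q) ℓ = 1) ∧ eval (fun p => w p.1 p.2) (H k) ≠ 0) ∧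
      ∀ w : Fin n → Fin (N + 1) → ℂ, (∀ q, ∀ f ∈ I, eval (w q) f = 0) →
        (∀ q, eval (w q) ℓ = 1) →
        ((∃ k, eval (fun p => w p.1 p.2) (H k) ≠ 0) → Function.Injective w) ∧
        ∀ P : Ideal (MvPolynomial (Fin (N + 1)) ℂ), P.IsPrime → Hmg P → I ≤ P → ∀ e : ℝ,
        Tendsto (fun t : ℕ => (hilb P t : ℝ) / t) atTop (𝓝 e) → ∀ m : Fin n → ℝ,
        (∀ q, Tendsto (fun M : ℕ => 2 * (len P (w q) M : ℝ) / (M : ℝ) ^ 2) atTop (𝓝 (m q))) →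
        ∀ k, eval (fun p => w p.1 p.2) (H k) ≠ 0 →
        ∑ q, m q ≤ (1 + 1 / ((k : ℝ) + 1)) * √(n / δ) * e :=
  exact_of_sep I δ hδ ℓ hℓ n (by exact_mod_cast hδ1.trans hn) fun ε hε =>
    sep_nodal I P₀ hI hIh hδ hgr hk hℓ hF hF0 hP hPh hsat hx hsm hδ1 hn hε

end proj


end Pool.Agent.TH836.NS
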